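import Mathlib

/-! Dendroids, the hyperspace of subcontinua, and the interface statements of the proof that
the hyperspace of subcontinua of a dendroid has the fixed point property. -/

namespace Pool.Agent.MP_98f34a_gt.H5

open Set TopologicalSpace

/-- Any two different points are the end points of an arc. -/
def ArcConnected (X : Type) [TopologicalSpace X] : Prop :=
  ∀ x y : X, x ≠ y → ∃ γ : Path x y, Function.Injective γ

/-- The intersection of any two subcontinua is empty or connected. -/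
def HeredUnicoherent (X : Type) [TopologicalSpace X] : Prop :=
  ∀ A B : Set X, IsCompact A → IsConnected A → IsCompact B → IsConnected B →
    IsPreconnected (A ∩ B)

/-- The hyperspace `C(X)` of subcontinua (Hausdorff metric). -/
abbrev Sub (X : Type) [MetricSpace X] : Type :=
  {K : NonemptyCompacts X // IsConnected (K : Set X)}

/-- Brouwer's theorem for maps with bounded range. -/
def BrouwerStmt : Prop :=
  ∀ (V : Type) [Fintype V] (g : (V → ℝ) → (V → ℝ)), Continuous g →
    (∃ R : ℝ, ∀ w, ‖g w‖ ≤ R) → ∃ w, g w = w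

/-- All connected subsets of `P` have diameter at most `ε`. -/
def SmallPieces {X : Type} [MetricSpace X] (P : Set X) (ε : ℝ) : Prop :=
  ∀ K : Set X, K ⊆ P → IsPreconnected K → ∀ x ∈ K, ∀ y ∈ K, dist x y ≤ ε

/-- One-dimensionality of dendroids in the form used below. -/
def DimStmt : Prop :=
  ∀ (X : Type) [MetricSpace X] [CompactSpace X], ArcConnected X → HeredUnicoherent X →
    ∀ ε : ℝ, 0 < ε → ∃ P Q : Set X, IsClosed P ∧ IsClosed Q ∧
      interior P ∪ interior Q = univ ∧ SmallPieces P ε ∧ SmallPieces Q ε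

/-- A finite closed cover whose nerve lies in a tree `V`, together with a realisation of the
tree inside `X` by short paths. `dep a b` is the tree distance and `nxt a b` is the neighbour of
`b` in the direction of `a`. -/
structure TreeCover (X : Type) [MetricSpace X] (ε : ℝ) where
  V : Type
  fin : Finite V
  A : V → V → Prop
  symm : ∀ a b, A a b → A b a
  F : V → Set X
  closed : ∀ a, IsClosed (F a)
  nonempty : ∀ a, (F a).Nonempty
  cover : ∀ x, ∃ a, x ∈ F a
  nerve : ∀ a b, (F a ∩ F b).Nonempty → a = b ∨ A a b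
  pt : V → X
  near : ∀ a, ∀ x ∈ F a, dist x (pt a) ≤ ε
  path : ∀ a b, A a b → ∃ γ : Path (pt a) (pt b), ∀ s, dist (γ s) (pt a) ≤ ε
  dep : V → V → ℕ
  nxt : V → V → V
  dep_zero : ∀ a b, dep a b = 0 → b = a
  dep_succ : ∀ a b k, dep a b = k + 1 → A (nxt a b) b ∧ dep a (nxt a b) = k
  conv : ∀ W : Set V,
    (∀ a ∈ W, ∀ b ∈ W, Relation.ReflTransGen (fun u v => u ∈ W ∧ v ∈ W ∧ A u v) a b) →
    ∀ a ∈ W, ∀ b ∈ W, nxt a b ∈ W

/-- Arbitrarily fine tree covers give the fixed point property of the hyperspace. -/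
def HyperStmt : Prop :=
  ∀ (X : Type) [MetricSpace X] [CompactSpace X] [Nonempty X],
    (∀ ε : ℝ, 0 < ε → Nonempty (TreeCover X ε)) →
    ∀ f : Sub X → Sub X, Continuous f → ∃ K, f K = K

/-- No edge of `R` inside `Y` joins `U` to its complement. -/
def NoEdge {Ω : Type} (R : Ω → Ω → Prop) (Y U : Set Ω) : Prop :=
  ∀ a ∈ Y, ∀ b ∈ Y, a ∈ U → b ∉ U → ¬ R a b

/-- `Y` cannot be split by a clopen set that no edge crosses. -/
def TC {Ω : Type} [TopologicalSpace Ω] (R : Ω → Ω → Prop) (Y : Set Ω) : Prop :=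
  ∀ U : Set Ω, IsClopen U → NoEdge R Y U → Y ⊆ U ∨ Y ⊆ Uᶜ

/-- A profinite bipartite graph that is connected as an abstract graph and in which no vertex has
two neighbours in a closed topologically connected set not containing it. -/
structure ProTree (Ω : Type) [TopologicalSpace Ω] where
  R : Ω → Ω → Prop
  symm : ∀ a b, R a b → R b a
  closed : IsClosed {p : Ω × Ω | R p.1 p.2}
  side : Ω → Bool
  side_cont : Continuous side
  side_ne : ∀ a b, R a b → side a ≠ side b
  conn : ∀ a b, Relation.ReflTransGen R a b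
  uniq : ∀ Y : Set Ω, IsClosed Y → TC R Y → ∀ c, c ∉ Y → ∀ a ∈ Y, ∀ b ∈ Y, R c a → R c b → a = b

/-- Existence of a locally constant label preserving endomorphism, and the tree structure. -/
def AbstractStmt : Prop :=
  ∀ (Ω : Type) [TopologicalSpace Ω] [CompactSpace Ω] [T2Space Ω] [TotallyDisconnectedSpace Ω]
    (T : ProTree Ω) (Λ : Type) (l : Ω → Λ), IsLocallyConstant l →
    (∃ φ : Ω → Ω, IsLocallyConstant φ ∧ (∀ z, l (φ z) = l z) ∧
      ∀ a b, T.R a b → T.R (φ a) (φ b)) ∧
    ∃ (dep : Ω → Ω → ℕ) (nxt : Ω → Ω → Ω), (∀ a b, dep a b = 0 → b = a) ∧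
      (∀ a b k, dep a b = k + 1 → T.R (nxt a b) b ∧ dep a (nxt a b) = k) ∧
      ∀ W : Set Ω,
        (∀ a ∈ W, ∀ b ∈ W, Relation.ReflTransGen (fun u v => u ∈ W ∧ v ∈ W ∧ T.R u v) a b) →
        ∀ a ∈ W, ∀ b ∈ W, nxt a b ∈ W

/-- Dendroids have arbitrarily fine tree covers. -/
def CoverStmt : Prop :=
  ∀ (X : Type) [MetricSpace X] [CompactSpace X] [Nonempty X], ArcConnected X →
    HeredUnicoherent X → ∀ ε : ℝ, 0 < ε → Nonempty (TreeCover X ε)

end Pool.Agent.MP_98f34a_gt.H5
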