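import Pool.Agent.MP_98f34a_gt.H5.Defs

/-! Compactness lemmas on profinite spaces. -/

namespace Pool.Agent.MP_98f34a_gt.H5

open Set Filter Topology

variable {Ω : Type} [TopologicalSpace Ω] [CompactSpace Ω]

/-- No pair of points of `Y` lies in `E`. -/
def Avoid (Y : Set Ω) (E : Set (Ω × Ω)) : Prop := ∀ a ∈ Y, ∀ b ∈ Y, (a, b) ∉ E

theorem avoid_dir {ι : Type} [Nonempty ι] (Y : ι → Set Ω) (hc : ∀ i, IsClosed (Y i))
    (hd : Directed (· ⊇ ·) Y) {E : Set (Ω × Ω)} (hE : IsClosed E) (h : Avoid (⋂ i, Y i) E) :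
    ∃ i, Avoid (Y i) E := by
  obtain ⟨i, hi⟩ := hE.isCompact.elim_directed_family_closed (fun i => Y i ×ˢ Y i)
    (fun i => (hc i).prod (hc i)) (by
      rw [eq_empty_iff_forall_notMem]
      rintro ⟨a, b⟩ ⟨hab, hm⟩
      rw [mem_iInter] at hm
      exact h a (mem_iInter.2 fun i => (hm i).1) b (mem_iInter.2 fun i => (hm i).2) hab)
    (fun i j => by
      obtain ⟨k, hi, hj⟩ := hd i j
      exact ⟨k, prod_mono hi hi, prod_mono hj hj⟩)
  refine ⟨i, fun a ha b hb hab => ?_⟩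
  have : (a, b) ∈ E ∩ Y i ×ˢ Y i := ⟨hab, ha, hb⟩
  rw [hi] at this
  exact this

/-- The quasi-component of `y` in `S`. -/
def qcomp (R : Ω → Ω → Prop) (S : Set Ω) (y : Ω) : Set Ω :=
  {z | z ∈ S ∧ ∀ U : Set Ω, IsClopen U → y ∈ U → NoEdge R S U → z ∈ U}

omit [CompactSpace Ω] in
theorem qcomp_closed (R : Ω → Ω → Prop) {S : Set Ω} (hS : IsClosed S) (y : Ω) :
    IsClosed (qcomp R S y) := by
  have : qcomp R S y = S ∩ ⋂ U : {U : Set Ω // IsClopen U ∧ y ∈ U ∧ NoEdge R S U}, U.1 := by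
    ext z
    simp only [qcomp, mem_ofPred_eq, mem_inter_iff, mem_iInter, Subtype.forall, and_imp]
  rw [this]
  exact hS.inter (isClosed_iInter fun U => U.2.1.isClosed)

theorem qcomp_avoid (R : Ω → Ω → Prop) {S : Set Ω} (hS : IsClosed S) (y : Ω)
    {E : Set (Ω × Ω)} (hE : IsClosed E) (h : Avoid (qcomp R S y) E) :
    ∃ U : Set Ω, IsClopen U ∧ y ∈ U ∧ NoEdge R S U ∧ Avoid (S ∩ U) E := by
  let ι := {U : Set Ω // IsClopen U ∧ y ∈ U ∧ NoEdge R S U}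
  have : Nonempty ι := ⟨⟨univ, isClopen_univ, trivial, fun a _ b _ _ hb => absurd trivial hb⟩⟩
  obtain ⟨U, hU⟩ := avoid_dir (fun U : ι => S ∩ U.1) (fun U => hS.inter U.2.1.isClosed)
    (fun U V => ⟨⟨U.1 ∩ V.1, U.2.1.inter V.2.1, ⟨U.2.2.1, V.2.2.1⟩, fun a ha b hb hab hn => by
        by_cases hbU : b ∈ U.1
        · exact V.2.2.2 a ha b hb hab.2 (fun hbV => hn ⟨hbU, hbV⟩)
        · exact U.2.2.2 a ha b hb hab.1 hbU⟩,
      fun z hz => ⟨hz.1, hz.2.1⟩, fun z hz => ⟨hz.1, hz.2.2⟩⟩) hE (by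
      have : (⋂ U : ι, S ∩ U.1) ⊆ qcomp R S y := by
        intro z hz
        rw [mem_iInter] at hz
        exact ⟨(hz (Classical.arbitrary ι)).1, fun U h1 h2 h3 => (hz ⟨U, h1, h2, h3⟩).2⟩
      exact fun a ha b hb => h a (this ha) b (this hb))
  exact ⟨U.1, U.2.1, U.2.2.1, U.2.2.2, hU⟩

theorem qcomp_TC {R : Ω → Ω → Prop} (hs : ∀ a b, R a b → R b a)
    (hR : IsClosed {p : Ω × Ω | R p.1 p.2}) {S : Set Ω} (hS : IsClosed S) (y : Ω) :
    TC R (qcomp R S y) := by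
  have key : ∀ V : Set Ω, IsClopen V → NoEdge R (qcomp R S y) V → y ∈ V → qcomp R S y ⊆ V := by
    intro V hV hn hy
    obtain ⟨U, hU, hyU, hUn, hav⟩ := qcomp_avoid R hS y
      (E := {p : Ω × Ω | R p.1 p.2} ∩ V ×ˢ Vᶜ) (hR.inter (hV.isClosed.prod hV.compl.isClosed))
      (fun a ha b hb hab => hn a ha b hb hab.2.1 hab.2.2 hab.1)
    intro z hz
    refine (hz.2 (U ∩ V) (hU.inter hV) ⟨hyU, hy⟩ ?_).2
    intro a ha b hb hab hn' hr
    by_cases hbU : b ∈ U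
    · exact hav a ⟨ha, hab.1⟩ b ⟨hb, hbU⟩ ⟨hr, hab.2, fun hbV => hn' ⟨hbU, hbV⟩⟩
    · exact hUn a ha b hb hab.1 hbU hr
  intro V hV hn
  by_cases hy : y ∈ V
  · exact Or.inl (key V hV hn hy)
  · refine Or.inr (key Vᶜ hV.compl ?_ hy)
    intro a ha b hb ha' hb' hr
    exact hn b hb a ha (not_not.1 hb') ha' (hs a b hr)

theorem baire_bdd [T2Space Ω] {S : Set Ω} (hS : IsClosed S) (hne : S.Nonempty) (d : Ω → ℕ)
    (hd : ∀ n, IsClosed {z | d z ≤ n}) :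
    ∃ O : Set Ω, IsOpen O ∧ (O ∩ S).Nonempty ∧ ∃ n, ∀ z ∈ O ∩ S, d z ≤ n := by
  have : CompactSpace S := isCompact_iff_compactSpace.1 hS.isCompact
  have : Nonempty S := hne.to_subtype
  obtain ⟨n, hn⟩ := nonempty_interior_of_iUnion_of_closed (X := S)
    (f := fun n : ℕ => {z : S | d z ≤ n})
    (fun n => (hd n).preimage continuous_subtype_val)
    (by ext z; simp only [mem_iUnion, mem_ofPred_eq, mem_univ, iff_true]; exact ⟨_, le_rfl⟩)
  obtain ⟨z, hz⟩ := hn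
  obtain ⟨O, hO, hOe⟩ := isOpen_induced_iff.1 (isOpen_interior (s := {z : S | d z ≤ n}))
  refine ⟨O, hO, ⟨z, by rw [← hOe] at hz; exact hz, z.2⟩, n, fun w hw => ?_⟩
  have : (⟨w, hw.2⟩ : S) ∈ interior {z : S | d z ≤ n} := by rw [← hOe]; exact hw.1
  have h2 := interior_subset this
  exact h2

variable [T2Space Ω] [TotallyDisconnectedSpace Ω]

theorem avoid_thick {S : Set Ω} (hS : IsClosed S) {E : Set (Ω × Ω)} (hE : IsClosed E)
    (h : Avoid S E) : ∃ N : Set Ω, IsClopen N ∧ S ⊆ N ∧ Avoid N E := by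
  let ι := {U : Set Ω // IsClopen U ∧ S ⊆ U}
  have : Nonempty ι := ⟨⟨univ, isClopen_univ, subset_univ _⟩⟩
  obtain ⟨U, hU⟩ := avoid_dir (fun U : ι => U.1) (fun U => U.2.1.isClosed)
    (fun U V => ⟨⟨U.1 ∩ V.1, U.2.1.inter V.2.1, subset_inter U.2.2 V.2.2⟩,
      inter_subset_left, inter_subset_right⟩) hE (by
      have : (⋂ U : ι, U.1) ⊆ S := by
        intro z hz
        by_contra hn
        obtain ⟨V, hV, h1, h2⟩ := exists_clopen_of_closed_subset_open hS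
          (isOpen_compl_singleton (x := z)) (fun w hw e => hn (by rw [← mem_singleton_iff.1 e]; exact hw))
        exact h2 (mem_iInter.1 hz ⟨V, hV, h1⟩) rfl
      exact fun a ha b hb => h a (this ha) b (this hb))
  exact ⟨U.1, U.2.1, U.2.2, hU⟩

theorem exists_clopen_of_eventually {x : Ω} {p : Ω → Prop} (h : ∀ᶠ z in 𝓝 x, p z) :
    ∃ U : Set Ω, IsClopen U ∧ x ∈ U ∧ ∀ z ∈ U, p z := by
  obtain ⟨U, hU, hp⟩ := (nhds_basis_clopen x).eventually_iff.1 h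
  exact ⟨U, hU.2, hU.1, fun z hz => hp hz⟩

theorem exists_quot {Λ : Type} (p : Ω → Λ → Prop) (h : ∀ x, ∃ a, ∀ᶠ z in 𝓝 x, p z a) :
    ∃ S : DiscreteQuotient Ω, ∀ x, ∃ a, ∀ z, S.toSetoid x z → p z a := by
  classical
  choose a ha using h
  choose U hU hx hp using fun x => exists_clopen_of_eventually (ha x)
  obtain ⟨t, ht⟩ := isCompact_univ.elim_finite_subcover U (fun x => (hU x).isOpen)
    (fun x _ => mem_iUnion.2 ⟨x, hx x⟩)
  refine ⟨t.inf fun x => DiscreteQuotient.ofIsClopen (hU x), fun x => ?_⟩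
  obtain ⟨y, hy, hxy⟩ := mem_iUnion₂.1 (ht (mem_univ x))
  refine ⟨a y, fun z hz => hp y z ?_⟩
  have hle : (t.inf fun x => DiscreteQuotient.ofIsClopen (hU x)) ≤
      DiscreteQuotient.ofIsClopen (hU y) := Finset.inf_le hy
  have : x ∈ U y ↔ z ∈ U y := hle hz
  exact this.1 hxy

theorem exists_select {Λ : Type} (p : Ω → Λ → Prop) (h : ∀ x, ∃ a, ∀ᶠ z in 𝓝 x, p z a) :
    ∃ F : Ω → Λ, IsLocallyConstant F ∧ ∀ z, p z (F z) := by
  obtain ⟨S, hS⟩ := exists_quot p h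
  choose a ha using hS
  refine ⟨fun z => a (S.proj z).out, S.proj_isLocallyConstant.comp fun q => a q.out, fun z => ?_⟩
  exact ha _ z (Quotient.exact (Quotient.out_eq (S.proj z)))

end Pool.Agent.MP_98f34a_gt.H5
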