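import Pool.Agent.MP_98f34a_gt.H5.Step

/-! The profinite tree of components of a two element closed cover of a dendroid. -/

namespace Pool.Agent.MP_98f34a_gt.H5

open Set Filter Topology

variable {X : Type} [MetricSpace X]

theorem arc_subset (hu : HeredUnicoherent X) {x y : X} (γ : Path x y)
    (hγ : Function.Injective γ) {K : Set X} (hK : IsCompact K) (hc : IsConnected K) (hx : x ∈ K)
    (hy : y ∈ K) (s : unitInterval) : γ s ∈ K := by
  have h1 := hu (range γ) K (isCompact_range γ.continuous) (isConnected_range γ.continuous) hK hc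
  have hemb : IsEmbedding γ := (γ.continuous.isClosedEmbedding hγ).isEmbedding
  rw [← image_preimage_eq_range_inter, hemb.isInducing.isPreconnected_image] at h1
  exact h1.Icc_subset (a := 0) (b := 1) (by simpa using hx) (by simpa using hy)
    ⟨s.2.1, s.2.2⟩

/-- The disjoint union of the two closed sets. -/
abbrev Two (sd : Bool → Set X) : Type := {p : X × Bool // p.1 ∈ sd p.2}

/-- Components of the two closed sets. -/
abbrev Om (sd : Bool → Set X) : Type := ConnectedComponents (Two sd)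

variable {sd : Bool → Set X}

/-- The union of a set of components. -/
def car (Y : Set (Om sd)) : Set X :=
  (fun s : Two sd => s.1.1) '' (ConnectedComponents.mk ⁻¹' Y)

/-- Two components on different sides that intersect. -/
def Adj (a b : Om sd) : Prop :=
  ∃ s t : Two sd, ConnectedComponents.mk s = a ∧ ConnectedComponents.mk t = b ∧
    s.1.1 = t.1.1 ∧ s.1.2 ≠ t.1.2

omit [MetricSpace X] in
theorem two_ext {s t : Two sd} (h1 : s.1.1 = t.1.1) (h2 : s.1.2 = t.1.2) : s = t :=
  Subtype.ext (Prod.ext h1 h2)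

theorem mk_eq_of {K : Set X} (hK : IsPreconnected K) {s t : Two sd} (hs : s.1.1 ∈ K)
    (ht : t.1.1 ∈ K) (he : s.1.2 = t.1.2) (h : K ⊆ sd t.1.2) :
    ConnectedComponents.mk s = ConnectedComponents.mk t := by
  have : PreconnectedSpace K := isPreconnected_iff_preconnectedSpace.1 hK
  let f : K → Two sd := fun z => ⟨(z.1, t.1.2), h z.2⟩
  have hf : Continuous f := by fun_prop
  have h1 : range f ⊆ connectedComponent t :=
    (isPreconnected_range hf).subset_connectedComponent ⟨⟨_, ht⟩, rfl⟩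
  exact ConnectedComponents.coe_eq_coe'.2 (h1 ⟨⟨_, hs⟩, two_ext rfl he.symm⟩)

theorem car_single (a : Om sd) : IsConnected (car {a}) := by
  obtain ⟨s, rfl⟩ := ConnectedComponents.surjective_coe a
  rw [car, connectedComponents_preimage_singleton]
  exact isConnected_connectedComponent.image _ (by fun_prop)

/-- The side of a component. -/
def sideOf : Om sd → Bool :=
  (show Continuous fun s : Two sd => s.1.2 by fun_prop).connectedComponentsLift

theorem sideOf_mk (s : Two sd) : sideOf (ConnectedComponents.mk s) = s.1.2 := rfl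

theorem car_side (a : Om sd) : car {a} ⊆ sd (sideOf a) := by
  rintro _ ⟨s, rfl, rfl⟩
  exact s.2

theorem reach_of_eq {s t : Two sd} (h : s.1.1 = t.1.1) :
    Relation.ReflTransGen Adj (ConnectedComponents.mk s) (ConnectedComponents.mk t) := by
  by_cases h2 : s.1.2 = t.1.2
  · rw [two_ext h h2]
  · exact .single ⟨s, t, rfl, rfl, h, h2⟩

theorem adj_conn (ha : ArcConnected X) (hi : ∀ x, ∃ b, x ∈ interior (sd b)) (a b : Om sd) :
    Relation.ReflTransGen Adj a b := by
  obtain ⟨s, rfl⟩ := ConnectedComponents.surjective_coe a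
  obtain ⟨t, rfl⟩ := ConnectedComponents.surjective_coe b
  by_cases h : s.1.1 = t.1.1
  · exact reach_of_eq h
  obtain ⟨γ, -⟩ := ha _ _ h
  have := PreconnectedSpace.induction₂' (fun u v : ℝ => ∀ s t : Two sd, s.1.1 = γ.extend u →
      t.1.1 = γ.extend v →
      Relation.ReflTransGen Adj (ConnectedComponents.mk s) (ConnectedComponents.mk t))
    (fun u => by
      obtain ⟨b, hb⟩ := hi (γ.extend u)
      obtain ⟨r, hr, hsub⟩ := Metric.mem_nhds_iff.1
        (γ.continuous_extend.continuousAt (mem_interior_iff_mem_nhds.1 hb))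
      have hK : IsPreconnected (γ.extend '' Metric.ball u r) :=
        (convex_ball u r).isPreconnected.image _ γ.continuous_extend.continuousOn
      have key : ∀ v ∈ Metric.ball u r, ∀ w ∈ Metric.ball u r, ∀ s t : Two sd,
          s.1.1 = γ.extend v → t.1.1 = γ.extend w →
          Relation.ReflTransGen Adj (ConnectedComponents.mk s) (ConnectedComponents.mk t) := by
        intro v hv w hw s t hs ht
        have e := mk_eq_of (sd := sd) hK (s := ⟨(γ.extend v, b), hsub hv⟩)
          (t := ⟨(γ.extend w, b), hsub hw⟩) ⟨v, hv, rfl⟩ ⟨w, hw, rfl⟩ rfl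
          (by rintro _ ⟨z, hz, rfl⟩; exact hsub hz)
        exact (reach_of_eq (t := ⟨(γ.extend v, b), hsub hv⟩) hs).trans
          (e ▸ reach_of_eq (s := ⟨(γ.extend w, b), hsub hw⟩) ht.symm)
      filter_upwards [Metric.ball_mem_nhds u hr] with v hv
      exact ⟨key u (Metric.mem_ball_self hr) v hv, key v hv u (Metric.mem_ball_self hr)⟩)
    ⟨fun u v w h1 h2 s t hs ht => by
      obtain ⟨b, hb⟩ := hi (γ.extend v)
      exact (h1 s ⟨(γ.extend v, b), interior_subset hb⟩ hs rfl).trans
        (h2 ⟨(γ.extend v, b), interior_subset hb⟩ t rfl ht)⟩ 0 1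
  exact this s t (by simp) (by simp)

variable [CompactSpace X]

theorem two_compact (hc : ∀ b, IsClosed (sd b)) : CompactSpace (Two sd) := by
  refine isCompact_iff_compactSpace.1 (IsClosed.isCompact (s := {p : X × Bool | p.1 ∈ sd p.2}) ?_)
  have : {p : X × Bool | p.1 ∈ sd p.2} = sd true ×ˢ {true} ∪ sd false ×ˢ {false} := by
    ext ⟨x, b⟩
    cases b <;> simp
  rw [this]
  exact ((hc true).prod isClosed_singleton).union ((hc false).prod isClosed_singleton)

omit [CompactSpace X] in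
theorem car_compact [CompactSpace (Two sd)] {Y : Set (Om sd)} (hY : IsClosed Y) :
    IsCompact (car Y) :=
  (hY.preimage ConnectedComponents.continuous_coe).isCompact.image (by fun_prop)

omit [CompactSpace X] in
theorem mk_closed [CompactSpace (Two sd)] {A : Set (Two sd)} (hA : IsClosed A) :
    IsClosed (ConnectedComponents.mk '' A) :=
  (hA.isCompact.image ConnectedComponents.continuous_coe).isClosed

omit [CompactSpace X] in
theorem car_preconnected [CompactSpace (Two sd)] {Y : Set (Om sd)} (hY : IsClosed Y)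
    (htc : TC Adj Y) : IsPreconnected (car Y) := by
  rw [isPreconnected_iff_subset_of_disjoint_closed]
  intro u v hu hv hcov hdis
  have hcl : ∀ w : Set X, IsClosed w → IsClosed (ConnectedComponents.mk ''
      (ConnectedComponents.mk ⁻¹' Y ∩ (fun s : Two sd => s.1.1) ⁻¹' w)) := fun w hw =>
    mk_closed ((hY.preimage ConnectedComponents.continuous_coe).inter (hw.preimage (by fun_prop)))
  obtain ⟨U, hU, h1, h2⟩ := exists_clopen_of_closed_subset_open (hcl u hu)
    (hcl v hv).isOpen_compl (by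
      rintro _ ⟨s, ⟨hs, hsu⟩, rfl⟩ ⟨t, ⟨ht, htv⟩, e⟩
      have hsub : car {ConnectedComponents.mk s} ⊆ car Y :=
        image_mono (preimage_mono (singleton_subset_iff.2 hs))
      obtain ⟨z, hz, hzuv⟩ := isPreconnected_closed_iff.1
        (car_single (ConnectedComponents.mk s)).isPreconnected u v hu hv (hsub.trans hcov)
        ⟨_, ⟨s, rfl, rfl⟩, hsu⟩ ⟨_, ⟨t, e, rfl⟩, htv⟩
      have : z ∈ car Y ∩ (u ∩ v) := ⟨hsub hz, hzuv⟩
      rw [hdis] at this
      exact this)
  rcases htc U hU (by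
    rintro _ ha _ hb haU hbU ⟨s, t, rfl, rfl, e, -⟩
    rcases hcov ⟨s, ha, rfl⟩ with h | h
    · exact hbU (h1 ⟨t, ⟨hb, by show t.1.1 ∈ u; rw [← e]; exact h⟩, rfl⟩)
    · exact h2 haU ⟨s, ⟨ha, h⟩, rfl⟩) with h | h
  · left
    rintro _ ⟨s, hs, rfl⟩
    exact (hcov ⟨s, hs, rfl⟩).resolve_right fun h' => h2 (h hs) ⟨s, ⟨hs, h'⟩, rfl⟩
  · right
    rintro _ ⟨s, hs, rfl⟩
    exact (hcov ⟨s, hs, rfl⟩).resolve_left fun h' => h hs (h1 ⟨s, ⟨hs, h'⟩, rfl⟩)

/-- The profinite tree of components. -/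
def proTree [CompactSpace (Two sd)] (ha : ArcConnected X) (hu : HeredUnicoherent X)
    (hi : ∀ x, ∃ b, x ∈ interior (sd b)) : ProTree (Om sd) where
  R := Adj
  symm := fun _ _ ⟨s, t, h1, h2, h3, h4⟩ => ⟨t, s, h2, h1, h3.symm, h4.symm⟩
  closed := by
    have : {p : Om sd × Om sd | Adj p.1 p.2} =
        Prod.map ConnectedComponents.mk ConnectedComponents.mk ''
          ({q : Two sd × Two sd | q.1.1.1 = q.2.1.1} ∩ {q | q.1.1.2 = !q.2.1.2}) := by
      ext ⟨a, b⟩
      constructor
      · rintro ⟨s, t, rfl, rfl, h3, h4⟩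
        exact ⟨(s, t), ⟨h3, Bool.eq_not.2 h4⟩, rfl⟩
      · rintro ⟨⟨s, t⟩, ⟨h3, h4⟩, h⟩
        exact ⟨s, t, congrArg Prod.fst h, congrArg Prod.snd h, h3, Bool.eq_not.1 h4⟩
    rw [this]
    refine (IsCompact.image (IsClosed.isCompact (IsClosed.inter ?_ ?_))
      (ConnectedComponents.continuous_coe.prodMap ConnectedComponents.continuous_coe)).isClosed
    · exact isClosed_eq (by fun_prop) (by fun_prop)
    · exact isClosed_eq (by fun_prop)
        ((continuous_of_discreteTopology (f := fun b : Bool => !b)).comp (by fun_prop))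
  side := sideOf
  side_cont := Continuous.connectedComponentsLift_continuous _
  side_ne := by
    rintro _ _ ⟨s, t, rfl, rfl, -, h⟩
    exact h
  conn := adj_conn ha hi
  uniq := by
    rintro Y hY htc c hc _ ha' _ hb ⟨s, s', e1, rfl, e2, e3⟩ ⟨t, t', f1, rfl, f2, f3⟩
    have hK := hu (car Y) (car {c}) (car_compact hY)
      ⟨⟨_, s', ha', rfl⟩, car_preconnected hY htc⟩ (car_compact isClosed_singleton) (car_single c)
    have hs : s.1.2 = sideOf c := by rw [← e1]; rfl
    have ht : t.1.2 = sideOf c := by rw [← f1]; rfl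
    have hne : ∀ b b' c : Bool, c ≠ b → c ≠ b' → b = b' := by decide
    refine mk_eq_of hK ⟨⟨s', ha', rfl⟩, s, e1, e2⟩ ⟨⟨t', hb, rfl⟩, t, f1, f2⟩
      (hne _ _ (sideOf c) (hs ▸ e3) (ht ▸ f3)) ?_
    rintro _ ⟨⟨p, hp, rfl⟩, q, hq, e⟩
    have hq' : ConnectedComponents.mk q = c := hq
    have h1 : sideOf c ≠ p.1.2 := by
      intro h
      have : q = p := two_ext e (by rw [← h, ← hq']; rfl)
      exact hc (by rw [← hq', this]; exact hp)
    have h2 : p.1.2 = t'.1.2 := hne _ _ (sideOf c) h1 (ht ▸ f3)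
    rw [← h2]
    exact p.2

theorem coverStmt (hD : DimStmt) : CoverStmt := by
  intro X _ _ _ ha hu ε hε
  obtain ⟨P, Q, hP, hQ, hPQ, sP, sQ⟩ := hD X ha hu (ε / 4) (by positivity)
  let sd : Bool → Set X := fun b => cond b P Q
  have hc : ∀ b, IsClosed (sd b) := fun b => by cases b <;> assumption
  have hs : ∀ b, SmallPieces (sd b) (ε / 4) := fun b => by cases b <;> assumption
  have hi : ∀ x, ∃ b, x ∈ interior (sd b) := fun x => by
    have : x ∈ interior P ∪ interior Q := by rw [hPQ]; trivial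
    rcases this with h | h
    · exact ⟨true, h⟩
    · exact ⟨false, h⟩
  have := two_compact hc
  have hdiam : ∀ a : Om sd, ∀ x ∈ car {a}, ∀ y ∈ car {a}, dist x y ≤ ε / 4 := fun a =>
    hs _ _ (car_side a) (car_single a).isPreconnected
  obtain ⟨l, hl, hlp⟩ := exists_select
    (fun (a : Om sd) (x : X) => ∀ y ∈ car {a}, dist y x < ε / 2) (fun a => by
      obtain ⟨x, hx⟩ := (car_single a).nonempty
      refine ⟨x, ?_⟩
      have hcl := mk_closed (sd := sd) (A := {s | ε / 2 ≤ dist s.1.1 x})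
        (isClosed_le continuous_const (by fun_prop))
      filter_upwards [hcl.isOpen_compl.mem_nhds (x := a) (by
        rintro ⟨s, h1, h2⟩
        have := hdiam a _ ⟨s, h2, rfl⟩ x hx
        have h1' : ε / 2 ≤ dist s.1.1 x := h1
        linarith)] with b hb
      rintro _ ⟨s, h1, rfl⟩
      by_contra h
      exact hb ⟨s, not_lt.1 h, h1⟩)
  obtain ⟨⟨φ, hφ, hφl, hφr⟩, dep, nxt, d0, d1, hconv⟩ :=
    abstractStmt (Om sd) (proTree ha hu hi) X l hl
  choose pt hpt using fun a : Om sd => (car_single a).nonempty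
  have hrange : ∀ a ∈ range φ, ∀ b ∈ range φ, nxt a b ∈ range φ := by
    refine hconv _ ?_
    rintro _ ⟨a, rfl⟩ _ ⟨b, rfl⟩
    induction adj_conn ha hi a b with
    | refl => exact .refl
    | tail _ h ih => exact ih.tail ⟨⟨_, rfl⟩, ⟨_, rfl⟩, hφr _ _ h⟩
  refine ⟨⟨range φ, hφ.range_finite, fun a b => Adj a.1 b.1,
    fun a b => (proTree ha hu hi).symm _ _, fun a => car {z | φ z = a.1},
    fun a => (car_compact (hφ.isClosed_fiber a.1)).isClosed, ?_, ?_, ?_, fun a => pt a.1, ?_, ?_,
    fun a b => dep a.1 b.1, fun a b => ⟨nxt a.1 b.1, hrange _ a.2 _ b.2⟩,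
    fun a b h => Subtype.ext (d0 _ _ h), fun a b k h => d1 _ _ k h, ?_⟩⟩
  · rintro ⟨_, a, rfl⟩
    obtain ⟨s, rfl⟩ := ConnectedComponents.surjective_coe a
    exact ⟨_, s, rfl, rfl⟩
  · intro x
    obtain ⟨b, hb⟩ := hi x
    exact ⟨⟨_, ConnectedComponents.mk ⟨(x, b), interior_subset hb⟩, rfl⟩,
      ⟨(x, b), interior_subset hb⟩, rfl, rfl⟩
  · rintro a b ⟨_, ⟨s, h1, rfl⟩, t, h2, e⟩
    have h1' : φ (ConnectedComponents.mk s) = a.1 := h1
    have h2' : φ (ConnectedComponents.mk t) = b.1 := h2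
    by_cases h : s.1.2 = t.1.2
    · left
      rw [two_ext e.symm h] at h1'
      exact Subtype.ext (h1'.symm.trans h2')
    · right
      rw [← h1', ← h2']
      exact hφr _ _ ⟨s, t, rfl, rfl, e.symm, h⟩
  · rintro a _ ⟨s, h1, rfl⟩
    have h1' : φ (ConnectedComponents.mk s) = a.1 := h1
    have e1 := hlp _ _ (⟨s, rfl, rfl⟩ : s.1.1 ∈ car {ConnectedComponents.mk s})
    have e2 := hlp _ _ (hpt a.1)
    rw [← hφl, h1'] at e1
    have := dist_triangle_right s.1.1 (pt a.1) (l a.1)
    linarith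
  · rintro a b ⟨s, t, h1, h2, e, -⟩
    by_cases h : pt a.1 = pt b.1
    · exact ⟨(Path.refl (pt a.1)).cast rfl h.symm, fun s => by simpa using hε.le⟩
    obtain ⟨γ, hγ⟩ := ha _ _ h
    refine ⟨γ, fun r => ?_⟩
    have hsa : s.1.1 ∈ car {a.1} := ⟨s, h1, rfl⟩
    have hsb : s.1.1 ∈ car {b.1} := ⟨t, h2, e.symm⟩
    rcases arc_subset hu γ hγ
      ((car_compact isClosed_singleton).union (car_compact isClosed_singleton))
      ((car_single a.1).union ⟨_, hsa, hsb⟩ (car_single b.1)) (Or.inl (hpt a.1))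
      (Or.inr (hpt b.1)) r with h' | h'
    · have := hdiam _ _ h' _ (hpt a.1)
      linarith
    · have e1 := hdiam _ _ h' _ hsb
      have e2 := hdiam _ _ hsa _ (hpt a.1)
      have := dist_triangle (γ r) s.1.1 (pt a.1)
      linarith
  · intro W hW a ha' b hb
    obtain ⟨c, hc', e⟩ := hconv (Subtype.val '' W) (by
      rintro _ ⟨a, ha, rfl⟩ _ ⟨b, hb, rfl⟩
      have h0 := hW a ha b hb
      clear hb
      induction h0 with
      | refl => exact .refl
      | tail _ h ih => exact ih.tail ⟨⟨_, h.1, rfl⟩, ⟨_, h.2.1, rfl⟩, h.2.2⟩)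
      _ ⟨a, ha', rfl⟩ _ ⟨b, hb, rfl⟩
    have : c = ⟨nxt a.1 b.1, hrange _ a.2 _ b.2⟩ := Subtype.ext e
    rw [← this]
    exact hc'

end Pool.Agent.MP_98f34a_gt.H5
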