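import Pool.Agent.MP_98f34a_gt.H5.Level

/-! Simulation of branches of a level, and the branches that fold back. -/

namespace Pool.Agent.MP_98f34a_gt.H5

open Set Filter Topology

variable {Ω : Type} [TopologicalSpace Ω]

namespace Level

variable {T : ProTree Ω} {x : Ω} (L : Level T x)

/-- Descendants of a vertex of a level. -/
def Desc (v : L.V) : Set L.V := {w | ∃ k, L.pa^[k] w = v ∧ L.ht w = L.ht v + k}

theorem desc_self (v : L.V) : v ∈ L.Desc v := ⟨0, rfl, rfl⟩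

theorem desc_child {v w w' : L.V} (h : w ∈ L.Desc v) (h1 : L.ht w' = L.ht w + 1)
    (h2 : L.pa w' = w) : w' ∈ L.Desc v := by
  obtain ⟨k, a1, a2⟩ := h
  exact ⟨k + 1, by rw [Function.iterate_succ_apply, h2, a1], by omega⟩

theorem desc_pa {v w w' : L.V} (h : w' ∈ L.Desc v) (hne : w' ≠ v) (h1 : L.ht w' = L.ht w + 1)
    (h2 : L.pa w' = w) : w ∈ L.Desc v := by
  obtain ⟨k, a1, a2⟩ := h
  rcases k with _ | k
  · exact absurd a1 hne
  · exact ⟨k, by rw [← h2]; exact a1, by omega⟩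

theorem desc_exit {v : L.V} {z z' : Ω} (h : L.π z ∈ L.Desc v) (h' : L.π z' ∉ L.Desc v)
    (hr : T.R z z') : L.π z = v ∧ L.π z' = L.pa v := by
  rcases L.adj z z' hr with ⟨h1, h2⟩ | ⟨h1, h2⟩
  · exact absurd (L.desc_child h h1 h2) h'
  · by_cases hz : L.π z = v
    · exact ⟨hz, by rw [← hz, h2]⟩
    · exact absurd (L.desc_pa h hz h1 h2) h'

theorem root_desc {v : L.V} (h : L.π x ∈ L.Desc v) : L.π x = v ∧ L.ht v = 0 := by
  obtain ⟨k, a1, a2⟩ := h
  rw [L.root] at a2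
  obtain rfl : k = 0 := by omega
  exact ⟨a1, by omega⟩

theorem desc_root (z : Ω) : L.π z ∈ L.Desc (L.π x) := by
  refine T.dep_ind (x := x) (P := fun z => L.π z ∈ L.Desc (L.π x)) (L.desc_self _)
    (fun z h1 _ ih => ?_) z
  rcases L.adj _ _ h1 with ⟨a1, a2⟩ | ⟨a1, a2⟩
  · exact L.desc_child ih a1 a2
  · refine L.desc_pa ih (fun h => ?_) a1 a2
    rw [h, L.root] at a1
    omega

/-- The map to the level determines the class for `S`. -/
def Refines (S : DiscreteQuotient Ω) : Prop := ∀ z z', L.π z = L.π z' → S.toSetoid z z'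

theorem Refines.mono {S S' : DiscreteQuotient Ω} (h : L.Refines S) (hle : S ≤ S') :
    L.Refines S' := fun z z' e => hle (h z z' e)

end Level

variable (T : ProTree Ω) {Λ : Type} (l : Ω → Λ)

/-- Pairs witnessing that `φ` is not a label preserving homomorphism. -/
def badPairs (φ : Ω → Ω) : Set (Ω × Ω) :=
  {p | l (φ p.1) ≠ l p.1} ∪ {p | T.R p.1 p.2} ∩ {p | ¬ T.R (φ p.1) (φ p.2)}

theorem badPairs_closed (hl : IsLocallyConstant l) {φ : Ω → Ω} (hφ : IsLocallyConstant φ) :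
    IsClosed (badPairs T l φ) :=
  (lc_clopen (((hφ.comp l).prodMk hl).comp_continuous continuous_fst)
    (fun q => q.1 ≠ q.2)).isClosed.union (T.closed.inter
    (lc_clopen ((hφ.comp_continuous continuous_fst).prodMk (hφ.comp_continuous continuous_snd))
      (fun q => ¬ T.R q.1 q.2)).isClosed)

/-- There is a locally constant map fixing `x` that is a label preserving homomorphism on `C`. -/
def Good (x : Ω) (C : Set Ω) : Prop :=
  ∃ φ : Ω → Ω, IsLocallyConstant φ ∧ φ x = x ∧ Avoid C (badPairs T l φ)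

/-- The branch of the level `L` below `v` is simulated starting from `a`. -/
def Sim {x : Ω} (L : Level T x) (C : Set Ω) (v : L.V) (a : Ω) : Prop :=
  ∃ h : L.V → Ω, h v = a ∧ (∀ z ∈ C, L.π z ∈ L.Desc v → l (h (L.π z)) = l z) ∧
    ∀ z ∈ C, ∀ z' ∈ C, L.π z ∈ L.Desc v → L.π z' ∈ L.Desc v → T.R z z' →
      T.R (h (L.π z)) (h (L.π z'))

/-- The kernel of a locally constant map. -/
def kerQ {φ : Ω → Ω} (hφ : IsLocallyConstant φ) : DiscreteQuotient Ω :=
  (⟨φ, hφ⟩ : LocallyConstant Ω Ω).discreteQuotient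

theorem sim_of_avoid {x : Ω} (L : Level T x) {C N : Set Ω} {φ : Ω → Ω}
    (hL : ∀ z z', L.π z = L.π z' → φ z = φ z') (hN : Avoid N (badPairs T l φ)) {u : Ω}
    (h : ∀ z ∈ C, L.π z ∈ L.Desc (L.π u) → z ∈ N) : Sim T l L C (L.π u) (φ u) := by
  have : Nonempty Ω := ⟨x⟩
  have e : ∀ z, φ (Function.invFun L.π (L.π z)) = φ z := fun z =>
    hL _ _ (Function.invFun_eq ⟨z, rfl⟩)
  refine ⟨fun w => φ (Function.invFun L.π w), e u, fun z hz hd => ?_, fun z hz z' hz' hd hd' hr => ?_⟩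
  · simp only [e]
    by_contra hne
    exact hN z (h z hz hd) z (h z hz hd) (Or.inl hne)
  · simp only [e]
    by_contra hne
    exact hN z (h z hz hd) z' (h z' hz' hd') (Or.inr ⟨hr, hne⟩)

/-- Points of `C` at which the depth is not continuous on `C`. -/
def disc (x : Ω) (C : Set Ω) : Set Ω :=
  {y | y ∈ C ∧ ¬ ∀ᶠ z in 𝓝 y, z ∈ C → T.dep x z ≤ T.dep x y}

variable [CompactSpace Ω] [T2Space Ω]

theorem ProTree.dep_lsc (x y : Ω) : ∀ᶠ z in 𝓝 y, T.dep x y ≤ T.dep x z := by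
  rcases h : T.dep x y with _ | n
  · exact Eventually.of_forall fun _ => Nat.zero_le _
  · filter_upwards [(T.closed_ball x n).isOpen_compl.mem_nhds (x := y)
      (by simp only [mem_compl_iff, mem_ofPred_eq]; omega)] with z hz
    simp only [mem_compl_iff, mem_ofPred_eq] at hz
    omega

theorem disc_closed (x : Ω) {C : Set Ω} (hC : IsClosed C) : IsClosed (disc T x C) := by
  rw [← isOpen_compl_iff, isOpen_iff_eventually]
  intro y hy
  by_cases hyC : y ∈ C
  · have h : ∀ᶠ z in 𝓝 y, z ∈ C → T.dep x z ≤ T.dep x y := by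
      by_contra h
      exact hy ⟨hyC, h⟩
    filter_upwards [h.eventually_nhds, T.dep_lsc x y] with w w1 w2 hw
    exact hw.2 (w1.mono fun z hz hzC => (hz hzC).trans w2)
  · filter_upwards [hC.isOpen_compl.mem_nhds hyC] with w w1 hw using w1 hw.1

theorem exists_not_disc [TotallyDisconnectedSpace Ω] (x : Ω) {C : Set Ω} (hC : IsClosed C)
    {y q : Ω} (hy : y ∈ C) (hne : y ≠ q) : ∃ z ∈ C, z ∉ disc T x C ∧ z ≠ q := by
  obtain ⟨U, hU, hyU, hUq⟩ := exists_clopen_of_eventually (isOpen_ne.mem_nhds hne)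
  obtain ⟨O, hO, ⟨b, hb⟩, n, hn⟩ := baire_bdd (hC.inter hU.isClosed) ⟨y, hy, hyU⟩ (T.dep x)
    (T.closed_ball x)
  have hfin : (T.dep x '' (O ∩ (C ∩ U))).Finite :=
    (finite_Iic n).subset (by rintro _ ⟨z, hz, rfl⟩; exact hn z hz)
  obtain ⟨_, ⟨z, hz, rfl⟩, hmax⟩ := hfin.exists_maximal ⟨_, b, hb, rfl⟩
  refine ⟨z, hz.2.1, fun h => h.2 ?_, hUq z hz.2.2⟩
  filter_upwards [hO.mem_nhds hz.1, hU.isOpen.mem_nhds hz.2.2] with w w1 w2 hw
  by_contra hlt
  have := hmax ⟨w, ⟨w1, hw, w2⟩, rfl⟩ (not_le.1 hlt).le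
  exact hlt this

omit [CompactSpace Ω] [T2Space Ω] in
theorem ProTree.desc_up {x u : Ω} (z : Ω) : z ∈ T.Desc x u → z ≠ u →
    ∃ u', T.par x u' = u ∧ T.dep x u' = T.dep x u + 1 ∧ z ∈ T.Desc x u' := by
  refine T.dep_ind (x := x) (P := fun z => z ∈ T.Desc x u → z ≠ u →
    ∃ u', T.par x u' = u ∧ T.dep x u' = T.dep x u + 1 ∧ z ∈ T.Desc x u') ?_ ?_ z
  · rintro ⟨k, h1, h2⟩ hne
    rw [T.dep_self] at h2
    obtain rfl : k = 0 := by omega
    exact absurd h1 hne
  · intro z _ h2 ih hz hne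
    by_cases hp : T.par x z = u
    · exact ⟨z, hp, by rw [h2, hp], T.desc_self x z⟩
    · obtain ⟨u', a1, a2, a3⟩ := ih (T.desc_par hz hne) hp
      exact ⟨u', a1, a2, T.desc_child a3 h2⟩

theorem anc_closed (x : Ω) {C K : Set Ω} (hK : IsClosed K) (hKC : K ⊆ C)
    (hd : ∀ z ∈ K, z ∉ disc T x C) (n : ℕ) :
    IsClosed {u | n < T.dep x u ∧ ∃ z ∈ K, z ∈ T.Desc x u} := by
  have hev : ∀ z ∈ K, ∀ᶠ w in 𝓝 z, w ∈ C → T.dep x w ≤ T.dep x z := by
    intro z hz
    by_contra h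
    exact hd z hz ⟨hKC hz, h⟩
  obtain ⟨m, hm⟩ : ∃ m, ∀ z ∈ K, T.dep x z ≤ m := by
    obtain ⟨m, hm⟩ := hK.isCompact.elim_directed_cover
      (fun m : ℕ => interior {w | w ∈ C → T.dep x w ≤ m}) (fun _ => isOpen_interior)
      (fun z hz => mem_iUnion.2 ⟨_, mem_interior_iff_mem_nhds.2 (hev z hz)⟩)
      (Monotone.directed_le fun a b hab =>
        interior_mono fun w hw hwC => (hw hwC).trans hab)
    exact ⟨m, fun z hz => interior_subset (hm hz) (hKC hz)⟩
  let B : ℕ → Set Ω := fun j => {u | T.dep x u = j ∧ ∃ z ∈ K, z ∈ T.Desc x u}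
  have hge : ∀ j, IsClosed (K ∩ {z | j ≤ T.dep x z}) := by
    intro j
    rw [← isOpen_compl_iff, isOpen_iff_eventually]
    intro y hy
    by_cases hyK : y ∈ K
    · filter_upwards [hev y hyK] with w w1 hw
      exact hy ⟨hyK, hw.2.trans (w1 (hKC hw.1))⟩
    · filter_upwards [hK.isOpen_compl.mem_nhds hyK] with w w1 hw using w1 hw.1
  have hB : ∀ i j, m < j + i → IsClosed (B j) := by
    intro i
    induction i with
    | zero =>
      intro j hj
      have : B j = ∅ := by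
        rw [eq_empty_iff_forall_notMem]
        rintro u ⟨h1, z, hz, k, -, h2⟩
        have := hm z hz
        omega
      rw [this]
      exact isClosed_empty
    | succ i ih =>
      intro j hj
      have : B j = ((K ∩ {z | j ≤ T.dep x z}) ∪ {u | ∃ q ∈ B (j + 1), T.R q u}) ∩
          {z | T.dep x z ≤ j} := by
        ext u
        constructor
        · rintro ⟨h1, z, hz, hzu⟩
          refine ⟨?_, h1.le⟩
          by_cases he : z = u
          · exact Or.inl ⟨he ▸ hz, h1.ge⟩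
          · obtain ⟨u', a1, a2, a3⟩ := T.desc_up z hzu he
            refine Or.inr ⟨u', ⟨by omega, z, hz, a3⟩, ?_⟩
            have := (T.par_spec a2).1
            rw [a1] at this
            exact T.symm _ _ this
        · rintro ⟨⟨h1, h2⟩ | ⟨q, ⟨h1, z, hz, k, a1, a2⟩, hr⟩, h3⟩
          · exact ⟨le_antisymm h3 h2, u, h1, T.desc_self x u⟩
          · have h3' : T.dep x u ≤ j := h3
            rcases T.adj_cases x hr with ⟨b1, -⟩ | ⟨b1, b2⟩
            · omega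
            · exact ⟨by omega, z, hz, k + 1, by rw [Function.iterate_succ_apply', a1, b2],
                by omega⟩
      rw [this]
      exact ((hge j).union (T.closed_nbr (ih (j + 1) (by omega)))).inter (T.closed_ball x j)
  have : {u | n < T.dep x u ∧ ∃ z ∈ K, z ∈ T.Desc x u} = ⋃ j ∈ Ioc n m, B j := by
    ext u
    simp only [mem_iUnion, mem_ofPred_eq, exists_prop]
    constructor
    · rintro ⟨h1, z, hz, k, a1, a2⟩
      have := hm z hz
      exact ⟨_, ⟨h1, by omega⟩, rfl, z, hz, k, a1, a2⟩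
    · rintro ⟨j, hj, h1, h2⟩
      exact ⟨h1 ▸ hj.1, h2⟩
  rw [this]
  exact (finite_Ioc n m).isClosed_biUnion fun j _ => hB (m + 1) j (by omega)

theorem fold [TotallyDisconnectedSpace Ω] (hl : IsLocallyConstant l) {x q : Ω} {C : Set Ω}
    (hC : IsClosed C) (htc : TC T.R C) (hx : x ∈ C)
    (hq : Good T l q (qcomp T.R (disc T x C ∪ {q}) q)) :
    ∃ S : DiscreteQuotient Ω, ∀ L : Level T x, L.Refines S → ∀ u ∈ C, S.toSetoid q u →
      (∀ z ∈ C, L.π z = L.π u → T.dep x q < T.dep x z) → Sim T l L C (L.π u) q := by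
  obtain ⟨φ, hφ, hφq, hav⟩ := hq
  have hS : IsClosed (disc T x C ∪ {q}) := (disc_closed T x hC).union isClosed_singleton
  have hE := badPairs_closed T l hl hφ
  obtain ⟨U, hU, hqU, hUn, hUa⟩ := qcomp_avoid T.R hS q hE hav
  obtain ⟨N, hN, hSN, hNa⟩ := avoid_thick hS
    (E := {p : Ω × Ω | T.R p.1 p.2} ∩ U ×ˢ Uᶜ ∪ badPairs T l φ ∩ U ×ˢ U)
    ((T.closed.inter (hU.isClosed.prod hU.compl.isClosed)).union
      (hE.inter (hU.isClosed.prod hU.isClosed))) (by
      rintro a ha b hb (h | h)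
      · exact hUn a ha b hb h.2.1 h.2.2 h.1
      · exact hUa a ⟨ha, h.2.1⟩ b ⟨hb, h.2.2⟩ h.1)
  have hM := anc_closed T x (C := C) (hC.inter hN.compl.isClosed) inter_subset_left
    (fun z hz h => hz.2 (hSN (Or.inl h))) (T.dep x q)
  obtain ⟨V, hV, hqV, hVp⟩ := exists_clopen_of_eventually
    (((hN.inter hU).isOpen.inter hM.isOpen_compl).mem_nhds (x := q)
      ⟨⟨hSN (Or.inr rfl), hqU⟩, fun h => lt_irrefl _ h.1⟩)
  refine ⟨DiscreteQuotient.ofIsClopen hV ⊓ kerQ hφ, fun L hL u hu hqu hdep => ?_⟩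
  have e : φ u = q := by
    have : φ q = φ u := hqu.2
    rw [← this, hφq]
  rw [← e]
  refine sim_of_avoid T l L (N := N ∩ U) (fun z z' h => (hL z z' h).2)
    (fun a ha b hb h => hNa a ha.1 b hb.1 (Or.inr ⟨h, ha.2, hb.2⟩)) ?_
  have huV : u ∈ V := (show q ∈ V ↔ u ∈ V from hqu.1).1 hqV
  have hbase : ∀ z ∈ C, L.π z = L.π u →
      (∃ a ∈ V, T.dep x q < T.dep x a ∧ z ∈ T.Desc x a) ∧ z ∈ N ∩ U := by
    intro z hz h
    have hzV : z ∈ V := (show z ∈ V ↔ u ∈ V from (hL z u h).1).2 huV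
    exact ⟨⟨z, hzV, hdep z hz h, T.desc_self x z⟩, (hVp z hzV).1⟩
  have key : ∀ z, z ∈ C → L.π z ∈ L.Desc (L.π u) →
      (∃ a ∈ V, T.dep x q < T.dep x a ∧ z ∈ T.Desc x a) ∧ z ∈ N ∩ U := by
    refine T.dep_ind (x := x) (fun h1 h2 => hbase x h1 (L.root_desc h2).1) ?_
    intro z h1 h2 ih hz hd
    by_cases he : L.π z = L.π u
    · exact hbase z hz he
    have hp : L.π (T.par x z) ∈ L.Desc (L.π u) := by
      by_contra h
      exact he (L.desc_exit hd h (T.symm _ _ h1)).1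
    obtain ⟨⟨a, a1, a2, a3⟩, i2⟩ := ih (T.par_mem hC htc hx hz) hp
    have a4 := T.desc_child a3 h2
    have hzN : z ∈ N := by
      by_contra h
      exact (hVp a a1).2 ⟨a2, z, ⟨hz, h⟩, a4⟩
    refine ⟨⟨a, a1, a2, a4⟩, hzN, ?_⟩
    by_contra h
    exact hNa _ i2.1 z hzN (Or.inl ⟨h1, i2.2, h⟩)
  exact fun z hz hd => (key z hz hd).2

end Pool.Agent.MP_98f34a_gt.H5
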