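import Pool.Agent.MP_98f34a_gt.H5.Tree

/-! Locally constant potentials of cocycles, and finite tree levels of a profinite tree. -/

namespace Pool.Agent.MP_98f34a_gt.H5

open Set Filter Topology

variable {Ω : Type} [TopologicalSpace Ω]

theorem lc_clopen {X Y : Type} [TopologicalSpace X] {f : X → Y} (hf : IsLocallyConstant f)
    (P : Y → Prop) : IsClopen {x | P (f x)} :=
  ⟨⟨hf {y | P y}ᶜ⟩, hf {y | P y}⟩

theorem lc_ite {Y : Type} {U : Set Ω} (hU : IsClopen U) [DecidablePred (· ∈ U)] {f g : Ω → Y}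
    (hf : IsLocallyConstant f) (hg : IsLocallyConstant g) :
    IsLocallyConstant fun z => if z ∈ U then f z else g z := by
  rw [IsLocallyConstant.iff_eventually_eq]
  intro x
  by_cases hx : x ∈ U
  · filter_upwards [hU.isOpen.mem_nhds hx, hf.eventually_eq x] with z h1 h2
    rw [if_pos h1, if_pos hx, h2]
  · filter_upwards [hU.compl.isOpen.mem_nhds hx, hg.eventually_eq x] with z h1 h2
    rw [if_neg h1, if_neg hx, h2]

namespace ProTree

variable (T : ProTree Ω) [CompactSpace Ω] [T2Space Ω]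

theorem exists_pot {W : Type} [Group W] (c : Ω → Ω → W)
    (hc : ∀ z z', T.R z z' → c z' z = (c z z')⁻¹) (r : Ω) :
    ∃ g : Ω → W, ∀ z z', T.R z z' → g z' = c z z' * g z := by
  let G : ℕ → Ω → W := fun n => Nat.rec (fun _ => 1)
    (fun _ f z => c (T.par r z) z * f (T.par r z)) n
  have hG : ∀ z z', T.dep r z' = T.dep r z + 1 → T.par r z' = z →
      G (T.dep r z') z' = c z z' * G (T.dep r z) z := by
    intro z z' h1 h2
    rw [h1]
    show c (T.par r z') z' * G (T.dep r z) (T.par r z') = _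
    rw [h2]
  refine ⟨fun z => G (T.dep r z) z, fun z z' h => ?_⟩
  rcases T.adj_cases r h with ⟨h1, h2⟩ | ⟨h1, h2⟩
  · exact hG z z' h1 h2
  · show G (T.dep r z') z' = c z z' * G (T.dep r z) z
    rw [hG z' z h1 h2, hc z z' h, mul_inv_cancel_left]

variable [TotallyDisconnectedSpace Ω]

theorem ball_lc {W : Type} [Group W] {c : Ω → Ω → W}
    (hcl : IsLocallyConstant fun p : Ω × Ω => c p.1 p.2) {g : Ω → W}
    (hg : ∀ z z', T.R z z' → g z' = c z z' * g z) (r : Ω) (n : ℕ) :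
    ∃ G : Ω → W, IsLocallyConstant G ∧ ∀ z, T.dep r z ≤ n → G z = g z := by
  induction n with
  | zero =>
    exact ⟨fun _ => g r, IsLocallyConstant.const _,
      fun z hz => by rw [T.dep_zero (Nat.le_zero.1 hz)]⟩
  | succ n ih =>
    obtain ⟨G, hG, hGg⟩ := ih
    refine exists_select (fun z a => T.dep r z ≤ n + 1 → a = g z) fun z => ⟨g z, ?_⟩
    have h1 : IsClosed ({w | T.dep r w ≤ n} ∩ {w | G w ≠ g z}) :=
      (T.closed_ball r n).inter (lc_clopen hG (· ≠ g z)).isClosed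
    have h2 : IsClosed (Prod.snd '' (({p : Ω × Ω | T.R p.1 p.2} ∩ {p | T.dep r p.1 ≤ n}) ∩
        {p | c p.1 p.2 * G p.1 ≠ g z})) :=
      (((T.closed.inter ((T.closed_ball r n).preimage continuous_fst)).inter
        (lc_clopen (hcl.mul (hG.comp_continuous continuous_fst)) (· ≠ g z)).isClosed).isCompact.image
        continuous_snd).isClosed
    have m1 := h1.isOpen_compl.mem_nhds (x := z) (fun h => h.2 (hGg z h.1))
    have m2 := h2.isOpen_compl.mem_nhds (x := z) (by
      rintro ⟨p, ⟨⟨a1, a2⟩, a3⟩, rfl⟩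
      exact a3 (by rw [hGg _ a2, ← hg _ _ a1]))
    filter_upwards [m1, m2] with w w1 w2 hw
    by_contra hne
    rcases hw.eq_or_lt with hw | hw
    · obtain ⟨a1, a2⟩ := T.par_spec hw
      refine w2 ⟨(T.par r w, w), ⟨⟨a1, a2.le⟩, ?_⟩, rfl⟩
      show c (T.par r w) w * G (T.par r w) ≠ g z
      rw [hGg _ a2.le, ← hg _ _ a1]
      exact fun h => hne h.symm
    · have hw' : T.dep r w ≤ n := by omega
      exact w1 ⟨hw', fun h => hne (by rw [← hGg w hw']; exact h.symm)⟩

theorem exists_lc_pot {W : Type} [Group W] {c : Ω → Ω → W}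
    (hcl : IsLocallyConstant fun p : Ω × Ω => c p.1 p.2)
    (hc : ∀ z z', T.R z z' → c z' z = (c z z')⁻¹) :
    ∃ g : Ω → W, IsLocallyConstant g ∧ ∀ z z', T.R z z' → g z' = c z z' * g z := by
  classical
  let Nice : Set Ω → Prop := fun Y => ∃ g : Ω → W, IsLocallyConstant g ∧
    ∀ z ∈ Y, ∀ z' ∈ Y, T.R z z' → g z' = c z z' * g z
  suffices h : Nice univ by
    obtain ⟨g, h1, h2⟩ := h
    exact ⟨g, h1, fun z z' => h2 z trivial z' trivial⟩
  by_contra hbad
  obtain ⟨Y, -, hY⟩ := zorn_superset_nonempty {Y : Set Ω | IsClosed Y ∧ ¬ Nice Y} (by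
    intro ch hch hchain hne
    refine ⟨⋂₀ ch, ⟨isClosed_sInter fun Y hY => (hch hY).1, ?_⟩, fun s hs => sInter_subset_of_mem hs⟩
    rintro ⟨g, hg, hgc⟩
    have : Nonempty ch := hne.to_subtype
    obtain ⟨Y, hY⟩ := avoid_dir (fun Y : ch => Y.1) (fun Y => (hch Y.2).1)
      (fun a b => by
        rcases hchain.total a.2 b.2 with h | h
        · exact ⟨a, Subset.rfl, h⟩
        · exact ⟨b, h, Subset.rfl⟩)
      (E := {p : Ω × Ω | T.R p.1 p.2} ∩ {p | g p.2 * (c p.1 p.2 * g p.1)⁻¹ ≠ 1})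
      (T.closed.inter (lc_clopen ((hg.comp_continuous continuous_snd).mul
        (hcl.mul (hg.comp_continuous continuous_fst)).inv) (· ≠ 1)).isClosed)
      (by
        rw [← sInter_eq_iInter]
        intro a ha b hb hab
        exact hab.2 (mul_inv_eq_one.2 (hgc a ha b hb hab.1)))
    refine (hch Y.2).2 ⟨g, hg, fun a ha b hb hab => ?_⟩
    by_contra hne
    exact hY a ha b hb ⟨hab, fun h => hne (mul_inv_eq_one.1 h)⟩) univ ⟨isClosed_univ, hbad⟩
  obtain ⟨⟨hYc, hYb⟩, hmin⟩ := hY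
  have hprop : ∀ Z, IsClosed Z → Z ⊆ Y → ¬ Y ⊆ Z → Nice Z := by
    intro Z h1 h2 h3
    by_contra h4
    exact h3 (hmin ⟨h1, h4⟩ h2)
  have hne : Y.Nonempty := by
    by_contra h
    rw [not_nonempty_iff_eq_empty] at h
    exact hYb ⟨fun _ => 1, IsLocallyConstant.const _, by simp [h]⟩
  have htc : TC T.R Y := by
    intro U hU hn
    by_contra h
    rw [not_or] at h
    obtain ⟨g1, l1, e1⟩ := hprop (Y ∩ U) (hYc.inter hU.isClosed) inter_subset_left
      fun h' => h.1 (h'.trans inter_subset_right)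
    obtain ⟨g2, l2, e2⟩ := hprop (Y ∩ Uᶜ) (hYc.inter hU.compl.isClosed) inter_subset_left
      fun h' => h.2 (h'.trans inter_subset_right)
    refine hYb ⟨_, lc_ite hU l1 l2, fun a ha b hb hab => ?_⟩
    by_cases haU : a ∈ U <;> by_cases hbU : b ∈ U
    · rw [if_pos haU, if_pos hbU]; exact e1 a ⟨ha, haU⟩ b ⟨hb, hbU⟩ hab
    · exact absurd hab (hn a ha b hb haU hbU)
    · exact absurd (T.symm _ _ hab) (hn b hb a ha hbU haU)
    · rw [if_neg haU, if_neg hbU]; exact e2 a ⟨ha, haU⟩ b ⟨hb, hbU⟩ hab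
  obtain ⟨r, hr⟩ := hne
  obtain ⟨g, hg⟩ := T.exists_pot c hc r
  obtain ⟨O, hO, ⟨b, hbO, hbY⟩, m, hm⟩ := baire_bdd hYc ⟨r, hr⟩ (T.dep r) (T.closed_ball r)
  obtain ⟨U, hU, hbU, hUO⟩ := exists_clopen_of_eventually (hO.mem_nhds hbO)
  have hY1 : IsClosed (Y ∩ Uᶜ) := hYc.inter hU.compl.isClosed
  obtain ⟨g1, l1, e1⟩ := hprop (Y ∩ Uᶜ) hY1 inter_subset_left fun h' => (h' hbY).2 hbU
  obtain ⟨G, hG, hGg⟩ := T.ball_lc hcl hg r (m + 1)
  have hκ : ∀ a ∈ Y ∩ Uᶜ, ∀ b ∈ Y ∩ Uᶜ, T.R a b → (g1 b)⁻¹ * g b = (g1 a)⁻¹ * g a := by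
    intro a ha b hb hab
    rw [e1 a ha b hb hab, hg a b hab]
    group
  obtain ⟨F, hF, hFg⟩ := exists_select (fun z a => z ∈ Y → a = g z) (fun z => by
    refine ⟨g z, ?_⟩
    by_cases hzY : z ∈ Y
    swap
    · filter_upwards [hYc.isOpen_compl.mem_nhds hzY] with w hw h using absurd h hw
    by_cases hzU : z ∈ U
    · filter_upwards [hU.isOpen.mem_nhds hzU, hG.eventually_eq z] with w w1 w2 hw
      rw [← hGg w ((hm w ⟨hUO w w1, hw⟩).trans (Nat.le_succ m)), w2,
        hGg z ((hm z ⟨hUO z hzU, hzY⟩).trans (Nat.le_succ m))]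
    have hzq : z ∈ qcomp T.R (Y ∩ Uᶜ) z := ⟨⟨hzY, hzU⟩, fun _ _ h _ => h⟩
    have hq := T.gc_of_tc (qcomp_closed T.R hY1 z) (qcomp_TC T.symm T.closed hY1 z)
    have hconst : ∀ w ∈ qcomp T.R (Y ∩ Uᶜ) z, (g1 w)⁻¹ * g w = (g1 z)⁻¹ * g z := by
      intro w hw
      have := hq z hzq w hw
      clear hw
      induction this with
      | refl => rfl
      | tail _ h2 ih => rw [hκ _ h2.1.1 _ h2.2.1.1 h2.2.2, ih]
    obtain ⟨U', hU', hzU', hn, hav⟩ := qcomp_avoid T.R hY1 z
      (E := {p : Ω × Ω | T.dep r p.1 ≤ m + 1} ∩ {p | (g1 p.1)⁻¹ * G p.1 ≠ (g1 z)⁻¹ * g z})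
      (((T.closed_ball r (m + 1)).preimage continuous_fst).inter
        (lc_clopen ((l1.inv.mul hG).comp_continuous continuous_fst)
          (· ≠ (g1 z)⁻¹ * g z)).isClosed)
      (fun a ha b _ hab => hab.2 (by
        show (g1 a)⁻¹ * G a = _
        rw [hGg a hab.1, hconst a ha]))
    have hlow : ∀ w ∈ (Y ∩ Uᶜ) ∩ U', T.dep r w ≤ m + 1 → (g1 w)⁻¹ * g w = (g1 z)⁻¹ * g z := by
      intro w hw hd
      by_contra hne
      exact hav w hw w hw ⟨hd, by
        show (g1 w)⁻¹ * G w ≠ _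
        rw [hGg w hd]; exact hne⟩
    have hall : ∀ w, w ∈ (Y ∩ Uᶜ) ∩ U' → (g1 w)⁻¹ * g w = (g1 z)⁻¹ * g z := by
      refine T.dep_ind (x := r) (fun h => hlow r h (by simp [T.dep_self])) ?_
      intro w h1 h2 ih hw
      by_cases hd : T.dep r w ≤ m + 1
      · exact hlow w hw hd
      have hp : T.par r w ∈ Y := T.par_mem hYc htc hr hw.1.1
      have hp1 : T.par r w ∈ Y ∩ Uᶜ := ⟨hp, fun h => by
        have := hm _ ⟨hUO _ h, hp⟩
        omega⟩
      have hp2 : T.par r w ∈ U' := by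
        by_contra h
        exact hn w hw.1 _ hp1 hw.2 h (T.symm _ _ h1)
      rw [hκ _ hp1 _ hw.1 h1, ih ⟨hp1, hp2⟩]
    filter_upwards [hU.compl.isOpen.mem_nhds hzU, hU'.isOpen.mem_nhds hzU', l1.eventually_eq z]
      with w w1 w2 w3 hw
    have := hall w ⟨⟨hw, w1⟩, w2⟩
    rw [w3] at this
    exact (mul_left_cancel this).symm)
  exact hYb ⟨F, hF, fun a ha b hb hab => by rw [hFg a ha, hFg b hb, hg a b hab]⟩

end ProTree

/-- A locally constant map to a rooted tree that sends edges to edges. -/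
structure Level (T : ProTree Ω) (x : Ω) where
  V : Type
  π : Ω → V
  lc : IsLocallyConstant π
  pa : V → V
  ht : V → ℕ
  root : ht (π x) = 0
  adj : ∀ z z', T.R z z' → (ht (π z') = ht (π z) + 1 ∧ pa (π z') = π z) ∨
    (ht (π z) = ht (π z') + 1 ∧ pa (π z) = π z')

theorem exists_level [CompactSpace Ω] [T2Space Ω] [TotallyDisconnectedSpace Ω] (T : ProTree Ω)
    (x : Ω) (S : DiscreteQuotient Ω) :
    ∃ L : Level T x, ∀ z z', L.π z = L.π z' → S.toSetoid z z' := by
  classical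
  let s : Ω → Ω → (S × S) × Bool := fun z z' =>
    if T.side z then ((S.proj z, S.proj z'), true) else ((S.proj z', S.proj z), false)
  let src : (S × S) × Bool → S := fun e => if e.2 then e.1.1 else e.1.2
  have hsrc : ∀ z z', src (s z z') = S.proj z := by
    intro z z'
    by_cases h : T.side z <;> simp [s, src, h]
  have hinv : ∀ z z', T.R z z' → s z' z = ((s z z').1, !(s z z').2) := by
    intro z z' h
    have := T.side_ne _ _ h
    cases h1 : T.side z <;> cases h2 : T.side z' <;> simp_all [s]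
  have hside : IsLocallyConstant T.side := (IsLocallyConstant.iff_continuous _).2 T.side_cont
  obtain ⟨g, hg, hgc⟩ := T.exists_lc_pot (W := FreeGroup (S × S))
    (c := fun z z' => FreeGroup.mk [s z z'])
    (((hside.comp_continuous continuous_fst).prodMk
      ((S.proj_isLocallyConstant.comp_continuous continuous_fst).prodMk
        (S.proj_isLocallyConstant.comp_continuous continuous_snd))).comp
      fun q : Bool × S × S => FreeGroup.mk
        [if q.1 then ((q.2.1, q.2.2), true) else ((q.2.2, q.2.1), false)])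
    (fun z z' h => by
      show FreeGroup.mk [s z' z] = (FreeGroup.mk [s z z'])⁻¹
      rw [hinv z z' h, FreeGroup.inv_mk]
      rfl)
  let w : Ω → List ((S × S) × Bool) := fun z => (g z * (g x)⁻¹).toWord
  have hw : ∀ z z', T.R z z' → w z' = s z z' :: w z ∨ w z = s z' z :: w z' := by
    intro z z' h
    have h1 : w z' = FreeGroup.reduce (s z z' :: w z) := by
      show (g z' * (g x)⁻¹).toWord = _
      rw [hgc z z' h, mul_assoc, ← FreeGroup.mk_toWord (x := g z * (g x)⁻¹), FreeGroup.mul_mk,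
        FreeGroup.toWord_mk]
      rfl
    have h2 : FreeGroup.reduce (w z) = w z := FreeGroup.reduce_toWord _
    rw [FreeGroup.reduce.cons, h2] at h1
    rcases h3 : w z with _ | ⟨hd, tl⟩
    · rw [h3] at h1
      exact Or.inl h1
    · rw [h3] at h1
      by_cases h4 : (s z z').1 = hd.1 ∧ (s z z').2 = !hd.2
      · right
        have h5 : w z' = tl := h1.trans (if_pos h4)
        rw [h5, hinv z z' h, h4.1, h4.2, Bool.not_not]
      · exact Or.inl (h1.trans (if_neg h4))
  refine ⟨⟨S × List ((S × S) × Bool), fun z => (S.proj z, w z),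
    S.proj_isLocallyConstant.prodMk (hg.comp fun a => (a * (g x)⁻¹).toWord),
    fun v => (match v.2 with | [] => v | e :: t => (src e, t)), fun v => v.2.length, ?_, ?_⟩, ?_⟩
  · simp [w]
  · intro z z' h
    rcases hw z z' h with h1 | h1
    · left
      simp only [h1, List.length_cons, hsrc, and_self]
    · right
      simp only [h1, List.length_cons, hsrc, and_self]
  · intro z z' h
    exact Quotient.exact (congrArg Prod.fst h)

end Pool.Agent.MP_98f34a_gt.H5
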