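import Pool.Agent.MP_98f34a_gt.H5.Fold

/-! The inductive step and the abstract theorem. -/

namespace Pool.Agent.MP_98f34a_gt.H5

open Set Filter Topology

variable {Ω : Type} [TopologicalSpace Ω] (T : ProTree Ω) {Λ : Type} (l : Ω → Λ)

/-- All branches of fine levels that start near `y` are simulated starting from `y`. -/
def Fine (x : Ω) (C : Set Ω) (y : Ω) : Prop :=
  ∃ S : DiscreteQuotient Ω, ∀ L : Level T x, L.Refines S → ∀ u ∈ C, S.toSetoid y u →
    Sim T l L C (L.π u) y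

theorem fine_of_good {x y : Ω} {C : Set Ω} (h : Good T l y C) : Fine T l x C y := by
  obtain ⟨φ, hφ, hy, hav⟩ := h
  refine ⟨kerQ hφ, fun L hL u _ hyu => ?_⟩
  have e : φ u = y := by
    have : φ y = φ u := hyu
    rw [← this, hy]
  rw [← e]
  exact sim_of_avoid T l L (fun z z' h => hL z z' h) hav fun z hz _ => hz

variable [CompactSpace Ω] [T2Space Ω] [TotallyDisconnectedSpace Ω]

theorem good_of_fine {x : Ω} {C : Set Ω} (hx : x ∈ C) (h : Fine T l x C x) : Good T l x C := by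
  obtain ⟨S, hS⟩ := h
  obtain ⟨L, hL⟩ := exists_level T x S
  obtain ⟨h, h1, h2, h3⟩ := hS L hL x hx (S.refl x)
  refine ⟨h ∘ L.π, L.lc.comp h, h1, ?_⟩
  rintro a ha b hb (hab | hab)
  · exact hab (h2 a ha (L.desc_root a))
  · exact hab.2 (h3 a ha b hb (L.desc_root a) (L.desc_root b) hab.1)

theorem fine_step (hl : IsLocallyConstant l) {x y : Ω} {C : Set Ω} (hC : IsClosed C)
    (htc : TC T.R C) (hx : x ∈ C)
    (hch : ∀ a ∈ C, T.par x a = y → T.dep x a = T.dep x y + 1 → Fine T l x C a)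
    (hpar : T.dep x y = T.dep x (T.par x y) + 1 →
      Good T l (T.par x y) (qcomp T.R (disc T x C ∪ {T.par x y}) (T.par x y))) :
    Fine T l x C y := by
  classical
  have hnb : ∀ a : {a // a ∈ C ∧ T.R y a}, ∃ S : DiscreteQuotient Ω, ∀ L : Level T x,
      L.Refines S → ∀ u ∈ C, S.toSetoid a u →
      (∀ z ∈ C, L.π z = L.π u → T.dep x y < T.dep x z) → Sim T l L C (L.π u) a := by
    rintro ⟨a, ha, hr⟩
    rcases T.adj_cases x hr with ⟨h1, h2⟩ | ⟨h1, h2⟩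
    · obtain ⟨S, hS⟩ := hch a ha h2 h1
      exact ⟨S, fun L hL u hu h _ => hS L hL u hu h⟩
    · subst h2
      obtain ⟨S, hS⟩ := fold T l hl hC htc hx (hpar h1)
      exact ⟨S, fun L hL u hu h h' => hS L hL u hu h fun z hz e => by
        have := h' z hz e
        omega⟩
  choose S hS using hnb
  have hcl : IsClosed {a | a ∈ C ∧ T.R y a} :=
    hC.inter (T.closed.preimage (f := fun a => (y, a)) (by fun_prop))
  obtain ⟨t, ht⟩ := hcl.isCompact.elim_finite_subcover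
    (fun a : {a // a ∈ C ∧ T.R y a} => {u | (S a).toSetoid a u})
    (fun a => ((S a).isClopen_setOfPred_rel a).isOpen)
    (fun a ha => mem_iUnion.2 ⟨⟨a, ha⟩, (S ⟨a, ha⟩).refl a⟩)
  have hW : IsOpen (⋃ a ∈ t, {u | (S a).toSetoid a u}) :=
    isOpen_biUnion fun a _ => ((S a).isClopen_setOfPred_rel a).isOpen
  have hfar := (T.closed_nbr (hC.inter hW.isClosed_compl)).isOpen_compl.mem_nhds (x := y) (by
    rintro ⟨q, hq, hr⟩
    exact hq.2 (ht ⟨hq.1, T.symm _ _ hr⟩))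
  obtain ⟨U, hU, hyU, hUp⟩ := exists_clopen_of_eventually
    ((T.dep_lsc x y).and ((hl.eventually_eq y).and hfar))
  refine ⟨DiscreteQuotient.ofIsClopen hU ⊓ t.inf S, fun L hL z0 _ hyz => ?_⟩
  set v := L.π z0 with hv
  have hz0U : z0 ∈ U := (show y ∈ U ↔ z0 ∈ U from hyz.1).1 hyU
  have hvU : ∀ z, L.π z = v → z ∈ U := fun z h =>
    (show z ∈ U ↔ z0 ∈ U from (hL z z0 h).1).2 hz0U
  have hent : ∀ v', L.ht v' = L.ht v + 1 → L.pa v' = v → ∀ z, z ∈ C → L.π z ∈ L.Desc v' →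
      (∃ u ∈ C, ∃ u' ∈ U, T.R u' u ∧ L.π u = v') ∧ T.dep x y < T.dep x z := by
    intro v' h1 h2
    refine T.dep_ind (x := x) (fun _ h => by have := (L.root_desc h).2; omega) ?_
    intro z a1 a2 ih hz hd
    by_cases hp : L.π (T.par x z) ∈ L.Desc v'
    · obtain ⟨i1, i2⟩ := ih (T.par_mem hC htc hx hz) hp
      exact ⟨i1, by omega⟩
    · obtain ⟨e1, e2⟩ := L.desc_exit hd hp (T.symm _ _ a1)
      have hpU := hvU _ (e2.trans h2)
      have := (hUp _ hpU).1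
      exact ⟨⟨z, hz, _, hpU, a1, e1⟩, by omega⟩
  have hsim : ∀ v', ∃ a, L.ht v' = L.ht v + 1 → L.pa v' = v →
      (∃ z ∈ C, L.π z ∈ L.Desc v') → T.R y a ∧ Sim T l L C v' a := by
    intro v'
    by_cases h : L.ht v' = L.ht v + 1 ∧ L.pa v' = v ∧ ∃ z ∈ C, L.π z ∈ L.Desc v'
    swap
    · exact ⟨y, fun h1 h2 h3 => absurd ⟨h1, h2, h3⟩ h⟩
    obtain ⟨h1, h2, z, hz, hd⟩ := h
    obtain ⟨u, hu, u', hu', hr, e⟩ := (hent v' h1 h2 z hz hd).1
    have huW : u ∈ ⋃ a ∈ t, {u | (S a).toSetoid a u} := by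
      by_contra hn
      exact (hUp u' hu').2.2 ⟨u, ⟨hu, hn⟩, T.symm _ _ hr⟩
    obtain ⟨a, hat, hau⟩ := mem_iUnion₂.1 huW
    refine ⟨a, fun _ _ _ => ⟨a.2.2, ?_⟩⟩
    rw [← e]
    refine hS a L (hL.mono _ (inf_le_right.trans (Finset.inf_le hat))) u hu hau fun w hw e' => ?_
    exact (hent v' h1 h2 w hw (by rw [e', e]; exact L.desc_self v')).2
  choose a ha using hsim
  have hH : ∀ v', ∃ h : L.V → Ω, L.ht v' = L.ht v + 1 → L.pa v' = v →
      (∃ z ∈ C, L.π z ∈ L.Desc v') → T.R y (h v') ∧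
      (∀ z ∈ C, L.π z ∈ L.Desc v' → l (h (L.π z)) = l z) ∧
      ∀ z ∈ C, ∀ z' ∈ C, L.π z ∈ L.Desc v' → L.π z' ∈ L.Desc v' → T.R z z' →
        T.R (h (L.π z)) (h (L.π z')) := by
    intro v'
    by_cases h : L.ht v' = L.ht v + 1 ∧ L.pa v' = v ∧ ∃ z ∈ C, L.π z ∈ L.Desc v'
    · obtain ⟨h1, h, h2, h3⟩ := ha v' h.1 h.2.1 h.2.2
      exact ⟨h, fun _ _ _ => ⟨h2 ▸ h1, h3⟩⟩
    · exact ⟨fun _ => y, fun h1 h2 h3 => absurd ⟨h1, h2, h3⟩ h⟩
  choose H hH using hH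
  let anc : L.V → L.V := fun w => L.pa^[L.ht w - L.ht v - 1] w
  have hanc : ∀ z, L.π z ∈ L.Desc v → L.π z ≠ v →
      L.ht (anc (L.π z)) = L.ht v + 1 ∧ L.pa (anc (L.π z)) = v ∧ L.π z ∈ L.Desc (anc (L.π z)) := by
    refine T.dep_ind (x := x) (fun h h' => absurd (L.root_desc h).1 h') ?_
    intro z a1 _ ih hd hne
    have huniq : ∀ w v', w ∈ L.Desc v' → L.ht v' = L.ht v + 1 → anc w = v' := by
      rintro w v' ⟨k, b1, b2⟩ b3
      have : L.ht w - L.ht v - 1 = k := by omega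
      simp only [anc, this, b1]
    rcases L.adj _ _ a1 with ⟨b1, b2⟩ | ⟨b1, b2⟩
    · have hp := L.desc_pa hd hne b1 b2
      by_cases he : L.π (T.par x z) = v
      · rw [huniq _ _ (L.desc_self (L.π z)) (by rw [b1, he])]
        exact ⟨by rw [b1, he], b2.trans he, L.desc_self _⟩
      · obtain ⟨i1, i2, i3⟩ := ih hp he
        have := L.desc_child i3 b1 b2
        rw [huniq _ _ this i1]
        exact ⟨i1, i2, this⟩
    · have hp := L.desc_child hd b1 b2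
      obtain ⟨k, c1, c2⟩ := hd
      have he : L.π (T.par x z) ≠ v := fun h => by rw [h] at b1; omega
      obtain ⟨i1, i2, i3⟩ := ih hp he
      have := L.desc_pa i3 (fun h => hne (by rw [← b2, h, i2])) b1 b2
      rw [huniq _ _ this i1]
      exact ⟨i1, i2, this⟩
  have huniq : ∀ w v', w ∈ L.Desc v' → L.ht v' = L.ht v + 1 → anc w = v' := by
    rintro w v' ⟨k, b1, b2⟩ b3
    have : L.ht w - L.ht v - 1 = k := by omega
    simp only [anc, this, b1]
  have hedge : ∀ z ∈ C, ∀ z' ∈ C, L.π z ∈ L.Desc v → T.R z z' →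
      L.ht (L.π z') = L.ht (L.π z) + 1 → L.pa (L.π z') = L.π z →
      T.R (if L.π z = v then y else H (anc (L.π z)) (L.π z))
        (if L.π z' = v then y else H (anc (L.π z')) (L.π z')) := by
    intro z hz z' hz' hd hr b1 b2
    have hd' := L.desc_child hd b1 b2
    have he : L.π z' ≠ v := fun h => by
      obtain ⟨k, c1, c2⟩ := hd
      rw [h] at b1; omega
    obtain ⟨i1, i2, i3⟩ := hanc z' hd' he
    rw [if_neg he]
    by_cases hzv : L.π z = v
    · rw [if_pos hzv]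
      have e := huniq _ _ (L.desc_self (L.π z')) (by rw [b1, hzv])
      have := (hH _ i1 i2 ⟨z', hz', i3⟩).1
      rw [e] at this ⊢
      exact this
    · rw [if_neg hzv]
      have := L.desc_pa i3 (fun h => hzv (by rw [← b2, h, i2])) b1 b2
      rw [huniq _ _ this i1]
      exact (hH _ i1 i2 ⟨z', hz', i3⟩).2.2 z hz z' hz' this i3 hr
  refine ⟨fun w => if w = v then y else H (anc w) w, if_pos rfl, fun z hz hd => ?_,
    fun z hz z' hz' hd hd' hr => ?_⟩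
  · by_cases hzv : L.π z = v
    · simp only [if_pos hzv]
      exact (hUp z (hvU z hzv)).2.1.symm
    · simp only [if_neg hzv]
      obtain ⟨i1, i2, i3⟩ := hanc z hd hzv
      exact (hH _ i1 i2 ⟨z, hz, i3⟩).2.1 z hz i3
  · rcases L.adj z z' hr with ⟨b1, b2⟩ | ⟨b1, b2⟩
    · exact hedge z hz z' hz' hd hr b1 b2
    · exact T.symm _ _ (hedge z' hz' z hz hd' (T.symm _ _ hr) b1 b2)

/-- Points reachable from `x` through points of `C` at which `C` is not good. -/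
def badC (C : Set Ω) (x : Ω) : Set Ω :=
  {z | Relation.ReflTransGen
    (fun a b => T.R a b ∧ (a ∈ C ∧ ¬ Good T l a C) ∧ (b ∈ C ∧ ¬ Good T l b C)) x z}

omit [CompactSpace Ω] [T2Space Ω] [TotallyDisconnectedSpace Ω] in
theorem badC_bad {C : Set Ω} {x z : Ω} (hx : x ∈ C ∧ ¬ Good T l x C) (hz : z ∈ badC T l C x) :
    z ∈ C ∧ ¬ Good T l z C := by
  induction hz with
  | refl => exact hx
  | tail _ h _ => exact h.2.2

omit [CompactSpace Ω] [T2Space Ω] [TotallyDisconnectedSpace Ω] in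
theorem badC_gc (C : Set Ω) (x : Ω) : GC T.R (badC T l C x) := by
  have key : ∀ z ∈ badC T l C x, Relation.ReflTransGen
      (fun u v => u ∈ badC T l C x ∧ v ∈ badC T l C x ∧ T.R u v) x z ∧ Relation.ReflTransGen
      (fun u v => u ∈ badC T l C x ∧ v ∈ badC T l C x ∧ T.R u v) z x := by
    intro z hz
    induction hz with
    | refl => exact ⟨.refl, .refl⟩
    | tail h1 h2 ih =>
      exact ⟨ih.1.tail ⟨h1, h1.tail h2, h2.1⟩, .head ⟨h1.tail h2, h1, T.symm _ _ h2.1⟩ ih.2⟩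
  exact fun a ha b hb => (key a ha).2.trans (key b hb).1

omit [CompactSpace Ω] [T2Space Ω] [TotallyDisconnectedSpace Ω] in
theorem badC_mono {C C' : Set Ω} {x x' : Ω} (h : C' ⊆ C) (hx : x' ∈ badC T l C x) :
    badC T l C' x' ⊆ badC T l C x := by
  have hm : ∀ a, (a ∈ C' ∧ ¬ Good T l a C') → a ∈ C ∧ ¬ Good T l a C := fun a ha =>
    ⟨h ha.1, fun ⟨φ, h1, h2, h3⟩ => ha.2 ⟨φ, h1, h2, fun a ha b hb => h3 a (h ha) b (h hb)⟩⟩
  intro z hz
  induction hz with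
  | refl => exact hx
  | tail _ h2 ih => exact Relation.ReflTransGen.tail ih ⟨h2.1, hm _ h2.2.1, hm _ h2.2.2⟩

theorem descend (hl : IsLocallyConstant l) {x : Ω} {C : Set Ω} (hC : IsClosed C)
    (htc : TC T.R C) (hx : x ∈ C) (hb : ¬ Good T l x C) :
    ∃ q ∈ badC T l C x, (∃ y ∈ C, y ≠ q) ∧ ¬ Good T l q (qcomp T.R (disc T x C ∪ {q}) q) := by
  have key : ∀ y, y ∈ badC T l C x → T.par x y ∈ badC T l C x → ¬ Fine T l x C y →
      ∃ q ∈ badC T l C x, (∃ y ∈ C, y ≠ q) ∧ ¬ Good T l q (qcomp T.R (disc T x C ∪ {q}) q) := by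
    intro y
    induction y using (T.wf x).induction with
    | _ y ih =>
      intro h1 h2 h3
      have hy := badC_bad T l ⟨hx, hb⟩ h1
      by_cases hch : ∀ a ∈ C, T.par x a = y → T.dep x a = T.dep x y + 1 → Fine T l x C a
      · by_contra hn
        refine h3 (fine_step T l hl hC htc hx hch fun hd => ?_)
        by_contra hg
        exact hn ⟨_, h2, ⟨y, hy.1, fun e => by rw [← e] at hd; omega⟩, hg⟩
      · push Not at hch
        obtain ⟨a, ha, a1, a2, a3⟩ := hch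
        have hr := (T.par_spec a2).1
        rw [a1] at hr
        exact ih a ⟨a1, a2⟩
          (Relation.ReflTransGen.tail h1 ⟨hr, hy, ha, fun h => a3 (fine_of_good T l h)⟩)
          (a1.symm ▸ h1) a3
  exact key x .refl (by rw [T.par_self]; exact .refl) fun h => hb (good_of_fine T l hx h)

omit [TotallyDisconnectedSpace Ω] in
theorem chain_inter {ι : Type} [Nonempty ι] (K : ι → Set Ω) (hgc : ∀ i, GC T.R (K i))
    (hne : ∀ i, (K i).Nonempty) (hd : Directed (· ⊇ ·) K) : ∃ o, ∀ i, o ∈ K i := by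
  obtain ⟨r, -⟩ := hne (Classical.arbitrary ι)
  have hroot : ∀ z, z ∈ T.Desc r r := fun z =>
    T.dep_ind (x := r) (P := fun z => z ∈ T.Desc r r) (T.desc_self r r)
      (fun z _ h2 ih => T.desc_child ih h2) z
  obtain ⟨o, ⟨i, hi⟩, hmin⟩ := (T.wf r).has_min {z | ∃ i, K i ⊆ T.Desc r z}
    ⟨r, Classical.arbitrary ι, fun z _ => hroot z⟩
  refine ⟨o, fun j => ?_⟩
  by_contra hj
  obtain ⟨k, hk1, hk2⟩ := hd i j
  have hok : o ∉ K k := fun h => hj (hk2 h)
  obtain ⟨w, hw⟩ := hne k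
  obtain ⟨u, a1, a2, a3⟩ := T.desc_up w (hi (hk1 hw)) (fun e => hok (e ▸ hw))
  refine hmin u ⟨k, fun z hz => ?_⟩ ⟨a1, a2⟩
  by_contra hn
  exact hok (a1 ▸ (T.gc_exit (hgc k) hw hz a3 hn).2)

theorem good_all (hl : IsLocallyConstant l) (x : Ω) : Good T l x univ := by
  by_contra hb
  let P := {p : Set Ω × Ω // IsClosed p.1 ∧ TC T.R p.1 ∧ p.2 ∈ p.1 ∧ ¬ Good T l p.2 p.1}
  have : Nonempty P := ⟨⟨(univ, x), isClosed_univ,
    (T.gc_of_par (x := x) (W := univ) trivial fun _ _ => trivial).tc, trivial, hb⟩⟩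
  obtain ⟨⟨⟨C, x⟩, hC, htc, hx, hb⟩, hm⟩ := exists_maximal_of_nonempty_chains_bounded
    (r := fun p q : P => q.1.1 ⊆ p.1.1 ∧ badC T l q.1.1 q.1.2 ⊆ badC T l p.1.1 p.1.2) (by
      intro c hc hne
      have : Nonempty c := hne.to_subtype
      have hdir : ∀ a b : c, ∃ k : c,
          (k.1.1.1 ⊆ a.1.1.1 ∧ badC T l k.1.1.1 k.1.1.2 ⊆ badC T l a.1.1.1 a.1.1.2) ∧
          (k.1.1.1 ⊆ b.1.1.1 ∧ badC T l k.1.1.1 k.1.1.2 ⊆ badC T l b.1.1.1 b.1.1.2) := by
        intro a b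
        by_cases e : a.1 = b.1
        · exact ⟨a, ⟨Subset.rfl, Subset.rfl⟩, e ▸ ⟨Subset.rfl, Subset.rfl⟩⟩
        rcases hc a.2 b.2 e with h | h
        · exact ⟨b, h, Subset.rfl, Subset.rfl⟩
        · exact ⟨a, ⟨Subset.rfl, Subset.rfl⟩, h⟩
      obtain ⟨o, ho⟩ := chain_inter T (fun p : c => badC T l p.1.1.1 p.1.1.2)
        (fun p => badC_gc T l _ _) (fun p => ⟨_, .refl⟩) (fun a b => by
          obtain ⟨k, h1, h2⟩ := hdir a b
          exact ⟨k, h1.2, h2.2⟩)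
      have ho' := fun p : c => badC_bad T l p.1.2.2.2 (ho p)
      have hoC : o ∈ ⋂ p : c, p.1.1.1 := mem_iInter.2 fun p => (ho' p).1
      refine ⟨⟨(⋂ p : c, p.1.1.1, o), isClosed_iInter fun p => p.1.2.1,
        (T.gc_of_par hoC fun z hz => mem_iInter.2 fun p =>
          T.par_mem p.1.2.1 p.1.2.2.1 (ho' p).1 (mem_iInter.1 hz p)).tc, hoC, ?_⟩, ?_⟩
      · rintro ⟨φ, h1, h2, h3⟩
        obtain ⟨p, hp⟩ := avoid_dir (fun p : c => p.1.1.1) (fun p => p.1.2.1) (fun a b => by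
          obtain ⟨k, h1, h2⟩ := hdir a b
          exact ⟨k, h1.1, h2.1⟩) (badPairs_closed T l hl h1) h3
        exact (ho' p).2 ⟨φ, h1, h2, hp⟩
      · intro a ha
        exact ⟨iInter_subset (fun p : c => p.1.1.1) ⟨a, ha⟩,
          badC_mono T l (iInter_subset (fun p : c => p.1.1.1) ⟨a, ha⟩) (ho ⟨a, ha⟩)⟩)
    (fun h1 h2 => ⟨h2.1.trans h1.1, h2.2.trans h1.2⟩)
  obtain ⟨q, hq, ⟨y, hy, hne⟩, hbad⟩ := descend T l hl hC htc hx hb
  have hS : IsClosed (disc T x C ∪ {q}) := (disc_closed T x hC).union isClosed_singleton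
  have hsub : qcomp T.R (disc T x C ∪ {q}) q ⊆ C := by
    rintro z ⟨h | h, -⟩
    · exact h.1
    · rw [mem_singleton_iff.1 h]
      exact (badC_bad T l ⟨hx, hb⟩ hq).1
  have := (hm ⟨(_, q), qcomp_closed T.R hS q, qcomp_TC T.symm T.closed hS q,
    ⟨Or.inr rfl, fun _ _ h _ => h⟩, hbad⟩ ⟨hsub, badC_mono T l hsub hq⟩).1
  obtain ⟨z, hz, z1, z2⟩ := exists_not_disc T x hC hy hne
  rcases (this hz).1 with h | h
  · exact z1 h
  · exact z2 h

theorem abstractStmt : AbstractStmt := by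
  intro Ω _ _ _ _ T Λ l hl
  refine ⟨?_, T.dep, T.par, fun a b => T.dep_zero, fun a b k => T.par_spec,
    fun W hW a ha b hb => T.gc_par hW ha hb⟩
  rcases isEmpty_or_nonempty Ω with h | ⟨⟨x⟩⟩
  · exact ⟨id, IsLocallyConstant.of_constant _ fun x => isEmptyElim x, fun _ => rfl,
      fun _ _ h => h⟩
  obtain ⟨φ, h1, -, h3⟩ := good_all T l hl x
  refine ⟨φ, h1, fun z => ?_, fun a b hr => ?_⟩
  · by_contra h
    exact h3 z trivial z trivial (Or.inl h)
  · by_contra h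
    exact h3 a trivial b trivial (Or.inr ⟨hr, h⟩)

end Pool.Agent.MP_98f34a_gt.H5
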