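import Pool.Agent.MP_98f34a_gt.H5.Basic

/-! The rooted tree structure of a profinite tree. -/

namespace Pool.Agent.MP_98f34a_gt.H5

open Set Filter Topology

variable {Ω : Type} [TopologicalSpace Ω]

/-- Connected as an abstract graph. -/
def GC (R : Ω → Ω → Prop) (W : Set Ω) : Prop :=
  ∀ a ∈ W, ∀ b ∈ W, Relation.ReflTransGen (fun u v => u ∈ W ∧ v ∈ W ∧ R u v) a b

theorem GC.tc {R : Ω → Ω → Prop} {W : Set Ω} (h : GC R W) : TC R W := by
  intro U _ hn
  by_contra hc
  rw [not_or, not_subset, not_subset] at hc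
  obtain ⟨⟨b, hb, hbU⟩, a, ha, haU⟩ := hc
  have haU' : a ∈ U := not_not.1 haU
  have : ∀ z, Relation.ReflTransGen (fun u v => u ∈ W ∧ v ∈ W ∧ R u v) a z → z ∈ U := by
    intro z hz
    induction hz with
    | refl => exact haU'
    | tail _ h2 ih =>
      by_contra hn'
      exact hn _ h2.1 _ h2.2.1 ih hn' h2.2.2
  exact hbU (this b (h a ha b hb))

theorem TC.closure {R : Ω → Ω → Prop} {W : Set Ω} (h : TC R W) : TC R (closure W) := by
  intro U hU hn
  rcases h U hU (fun a ha b hb => hn a (subset_closure ha) b (subset_closure hb)) with h1 | h1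
  · exact Or.inl (closure_minimal h1 hU.isClosed)
  · exact Or.inr (closure_minimal h1 hU.compl.isClosed)

theorem TC.union {R : Ω → Ω → Prop} {W W' : Set Ω} (h : TC R W) (h' : TC R W') {x : Ω}
    (hx : x ∈ W) (hx' : x ∈ W') : TC R (W ∪ W') := by
  intro U hU hn
  rcases h U hU (fun a ha b hb => hn a (Or.inl ha) b (Or.inl hb)) with h1 | h1 <;>
    rcases h' U hU (fun a ha b hb => hn a (Or.inr ha) b (Or.inr hb)) with h2 | h2
  · exact Or.inl (union_subset h1 h2)
  · exact absurd (h1 hx) (h2 hx')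
  · exact absurd (h2 hx') (h1 hx)
  · exact Or.inr (union_subset h1 h2)

namespace ProTree

variable (T : ProTree Ω)

/-- Points within graph distance `n` of `x`. -/
def Within (x : Ω) : ℕ → Set Ω
  | 0 => {x}
  | n + 1 => Within x n ∪ {z | ∃ q ∈ Within x n, T.R q z}

theorem within_mono (x : Ω) : Monotone (T.Within x) :=
  monotone_nat_of_le_succ fun _ => subset_union_left

theorem exists_within (x z : Ω) : ∃ n, z ∈ T.Within x n := by
  induction T.conn x z with
  | refl => exact ⟨0, rfl⟩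
  | tail _ h2 ih =>
    obtain ⟨n, hn⟩ := ih
    exact ⟨n + 1, Or.inr ⟨_, hn, h2⟩⟩

open Classical in
/-- Graph distance. -/
noncomputable def dep (x z : Ω) : ℕ := Nat.find (T.exists_within x z)

theorem dep_le_iff {x z : Ω} {n : ℕ} : T.dep x z ≤ n ↔ z ∈ T.Within x n := by
  classical
  constructor
  · intro h
    exact T.within_mono x h (Nat.find_spec (T.exists_within x z))
  · intro h
    exact Nat.find_min' _ h

theorem dep_self (x : Ω) : T.dep x x = 0 := Nat.le_zero.1 (T.dep_le_iff.2 rfl)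

theorem dep_zero {x z : Ω} (h : T.dep x z = 0) : z = x := T.dep_le_iff.1 h.le

theorem dep_adj {x z z' : Ω} (h : T.R z z') : T.dep x z' ≤ T.dep x z + 1 :=
  T.dep_le_iff.2 (Or.inr ⟨z, T.dep_le_iff.1 le_rfl, h⟩)

theorem exists_par {x z : Ω} {n : ℕ} (h : T.dep x z = n + 1) :
    ∃ q, T.R q z ∧ T.dep x q + 1 = T.dep x z := by
  rcases T.dep_le_iff.1 h.le with h1 | ⟨q, hq, hr⟩
  · have := T.dep_le_iff.2 h1
    omega
  · have h1 := T.dep_le_iff.2 hq
    have h2 := T.dep_adj (x := x) hr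
    exact ⟨q, hr, by omega⟩

open Classical in
/-- The neighbour of `z` in the direction of `x`. -/
noncomputable def par (x z : Ω) : Ω :=
  if h : ∃ q, T.R q z ∧ T.dep x q + 1 = T.dep x z then h.choose else z

theorem par_spec {x z : Ω} {n : ℕ} (h : T.dep x z = n + 1) :
    T.R (T.par x z) z ∧ T.dep x (T.par x z) = n := by
  have he := T.exists_par h
  have := he.choose_spec
  rw [par, dif_pos he]
  exact ⟨this.1, by omega⟩

theorem par_self (x : Ω) : T.par x x = x := by
  rw [par, dif_neg]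
  rintro ⟨q, -, hq⟩
  rw [T.dep_self] at hq
  omega

theorem dep_ind {x : Ω} {P : Ω → Prop} (h0 : P x)
    (hs : ∀ z, T.R (T.par x z) z → T.dep x z = T.dep x (T.par x z) + 1 → P (T.par x z) → P z)
    (z : Ω) : P z := by
  obtain ⟨n, hn⟩ : ∃ n, T.dep x z = n := ⟨_, rfl⟩
  induction n generalizing z with
  | zero => rw [T.dep_zero hn]; exact h0
  | succ n ih =>
    obtain ⟨h1, h2⟩ := T.par_spec hn
    exact hs z h1 (by omega) (ih _ h2)

theorem side_parity (x z : Ω) : T.side z = T.side x ↔ Even (T.dep x z) := by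
  refine T.dep_ind (x := x) (P := fun z => T.side z = T.side x ↔ Even (T.dep x z))
    (by simp [T.dep_self]) (fun z h1 h2 ih => ?_) z
  rw [h2, Nat.even_add_one, ← ih]
  have := T.side_ne _ _ h1
  revert this
  cases T.side z <;> cases T.side x <;> cases T.side (T.par x z) <;> simp

theorem dep_ne {x z z' : Ω} (h : T.R z z') : T.dep x z ≠ T.dep x z' := by
  intro he
  have h1 := T.side_parity x z
  have h2 := T.side_parity x z'
  rw [he, ← h2] at h1
  have := T.side_ne _ _ h
  revert this h1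
  cases T.side z <;> cases T.side x <;> cases T.side z' <;> simp

theorem gc_of_par {x : Ω} {W : Set Ω} (_hx : x ∈ W) (h : ∀ z ∈ W, T.par x z ∈ W) : GC T.R W := by
  have key : ∀ z, z ∈ W →
      Relation.ReflTransGen (fun u v => u ∈ W ∧ v ∈ W ∧ T.R u v) x z ∧
      Relation.ReflTransGen (fun u v => u ∈ W ∧ v ∈ W ∧ T.R u v) z x := by
    intro z
    refine T.dep_ind (x := x) (P := fun z => z ∈ W →
      Relation.ReflTransGen (fun u v => u ∈ W ∧ v ∈ W ∧ T.R u v) x z ∧
      Relation.ReflTransGen (fun u v => u ∈ W ∧ v ∈ W ∧ T.R u v) z x)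
      (fun _ => ⟨.refl, .refl⟩) (fun z h1 _ ih hz => ?_) z
    obtain ⟨i1, i2⟩ := ih (h z hz)
    exact ⟨i1.tail ⟨h z hz, hz, h1⟩, .head ⟨hz, h z hz, T.symm _ _ h1⟩ i2⟩
  intro a ha b hb
  exact (key a ha).2.trans (key b hb).1

theorem dep_par_le (x z : Ω) : T.dep x (T.par x z) ≤ T.dep x z := by
  rcases h : T.dep x z with _ | n
  · rw [T.dep_zero h, T.par_self, T.dep_self]
  · have := (T.par_spec h).2
    omega

theorem gc_ball (x : Ω) (n : ℕ) : GC T.R {z | T.dep x z ≤ n} :=
  T.gc_of_par (x := x) (by simp [T.dep_self]) fun z hz => (T.dep_par_le x z).trans hz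

variable [CompactSpace Ω] [T2Space Ω]

theorem closed_nbr {S : Set Ω} (hS : IsClosed S) : IsClosed {z | ∃ q ∈ S, T.R q z} := by
  have : {z | ∃ q ∈ S, T.R q z} = Prod.snd '' ({p : Ω × Ω | T.R p.1 p.2} ∩ Prod.fst ⁻¹' S) := by
    ext z
    constructor
    · rintro ⟨q, hq, hr⟩
      exact ⟨(q, z), ⟨hr, hq⟩, rfl⟩
    · rintro ⟨p, ⟨hr, hq⟩, rfl⟩
      exact ⟨p.1, hq, hr⟩
  rw [this]
  exact ((T.closed.inter (hS.preimage continuous_fst)).isCompact.image continuous_snd).isClosed

theorem closed_ball (x : Ω) (n : ℕ) : IsClosed {z | T.dep x z ≤ n} := by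
  have : {z | T.dep x z ≤ n} = T.Within x n := by
    ext z
    exact T.dep_le_iff
  rw [this]
  clear this
  induction n with
  | zero => exact isClosed_singleton
  | succ n ih => exact ih.union (T.closed_nbr ih)

theorem par_eq {x q z : Ω} (h : T.R q z) (hd : T.dep x z = T.dep x q + 1) : T.par x z = q := by
  obtain ⟨h1, h2⟩ := T.par_spec hd
  exact T.uniq _ (T.closed_ball x (T.dep x q)) (T.gc_ball x _).tc z
    (by simp only [mem_ofPred_eq]; omega) _ h2.le _ (le_refl (T.dep x q)) (T.symm _ _ h1)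
    (T.symm _ _ h)

theorem adj_cases (x : Ω) {z z' : Ω} (h : T.R z z') :
    (T.dep x z' = T.dep x z + 1 ∧ T.par x z' = z) ∨
      (T.dep x z = T.dep x z' + 1 ∧ T.par x z = z') := by
  have h1 := T.dep_adj (x := x) h
  have h2 := T.dep_adj (x := x) (T.symm _ _ h)
  have h3 := T.dep_ne (x := x) h
  rcases Nat.lt_or_gt_of_ne h3 with h4 | h4
  · exact Or.inl ⟨by omega, T.par_eq h (by omega)⟩
  · exact Or.inr ⟨by omega, T.par_eq (T.symm _ _ h) (by omega)⟩

theorem par_mem {Y : Set Ω} (hY : IsClosed Y) (hc : TC T.R Y) {x z : Ω} (hx : x ∈ Y)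
    (hz : z ∈ Y) : T.par x z ∈ Y := by
  rcases h : T.dep x z with _ | n
  · rw [T.dep_zero h, T.par_self]; exact hx
  obtain ⟨h1, h2⟩ := T.par_spec h
  rcases n with _ | n
  · rw [T.dep_zero h2]; exact hx
  obtain ⟨h3, h4⟩ := T.par_spec h2
  by_contra hn
  have := T.uniq _ (hY.union (T.closed_ball x n))
    (hc.union (T.gc_ball x n).tc hx (by simp [T.dep_self])) (T.par x z)
    (by
      rintro (h5 | h5)
      · exact hn h5
      · simp only [mem_ofPred_eq] at h5; omega)
    z (Or.inl hz) _ (Or.inr h4.le) h1 (T.symm _ _ h3)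
  rw [← this] at h4
  omega

theorem gc_of_tc {Y : Set Ω} (hY : IsClosed Y) (hc : TC T.R Y) : GC T.R Y := fun a ha =>
  T.gc_of_par ha (fun _ hz => T.par_mem hY hc ha hz) a ha

/-- Descendants of `u` for the root `x`. -/
def Desc (x u : Ω) : Set Ω := {z | ∃ k, (T.par x)^[k] z = u ∧ T.dep x z = T.dep x u + k}

omit [CompactSpace Ω] [T2Space Ω] in
theorem desc_self (x u : Ω) : u ∈ T.Desc x u := ⟨0, rfl, rfl⟩

omit [CompactSpace Ω] [T2Space Ω] in
theorem desc_child {x u z : Ω} (h : T.par x z ∈ T.Desc x u)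
    (hd : T.dep x z = T.dep x (T.par x z) + 1) : z ∈ T.Desc x u := by
  obtain ⟨k, h1, h2⟩ := h
  exact ⟨k + 1, h1, by omega⟩

omit [CompactSpace Ω] [T2Space Ω] in
theorem desc_par {x u z : Ω} (h : z ∈ T.Desc x u) (hne : z ≠ u) : T.par x z ∈ T.Desc x u := by
  obtain ⟨k, h1, h2⟩ := h
  rcases k with _ | k
  · exact absurd h1 hne
  · have := (T.par_spec (x := x) (z := z) (n := T.dep x u + k) (by omega)).2
    exact ⟨k, h1, this⟩

theorem desc_exit {x u z z' : Ω} (h : z ∈ T.Desc x u) (h' : z' ∉ T.Desc x u) (hr : T.R z z') :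
    z = u ∧ z' = T.par x u := by
  rcases T.adj_cases x hr with ⟨h1, h2⟩ | ⟨h1, h2⟩
  · exact absurd (T.desc_child (h2.symm ▸ h) (by rw [h2]; exact h1)) h'
  · by_cases hz : z = u
    · exact ⟨hz, by rw [← hz, h2]⟩
    · exact absurd (h2 ▸ T.desc_par h hz) h'

theorem gc_exit {W : Set Ω} (hW : GC T.R W) {x u a b : Ω} (ha : a ∈ W) (hb : b ∈ W)
    (h : a ∈ T.Desc x u) (h' : b ∉ T.Desc x u) : u ∈ W ∧ T.par x u ∈ W := by
  have key : ∀ z, Relation.ReflTransGen (fun u v => u ∈ W ∧ v ∈ W ∧ T.R u v) a z →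
      z ∈ T.Desc x u ∨ (u ∈ W ∧ T.par x u ∈ W) := by
    intro z hz
    induction hz with
    | refl => exact Or.inl h
    | @tail c d _ h2 ih =>
      rcases ih with ih | ih
      · by_cases hd : d ∈ T.Desc x u
        · exact Or.inl hd
        · obtain ⟨e1, e2⟩ := T.desc_exit ih hd h2.2.2
          exact Or.inr ⟨e1 ▸ h2.1, e2 ▸ h2.2.1⟩
      · exact Or.inr ih
  exact (key b (hW a ha b hb)).resolve_left h'

theorem gc_par {W : Set Ω} (hW : GC T.R W) {a b : Ω} (ha : a ∈ W) (hb : b ∈ W) :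
    T.par a b ∈ W := by
  by_cases hab : b = a
  · rw [hab, T.par_self]; exact ha
  refine (T.gc_exit hW hb ha (T.desc_self a b) ?_).2
  rintro ⟨k, -, h2⟩
  rw [T.dep_self] at h2
  exact hab (T.dep_zero (by omega))

/-- There is no infinite ray. -/
theorem wf (x : Ω) :
    WellFounded fun a b : Ω => T.par x a = b ∧ T.dep x a = T.dep x b + 1 := by
  rw [wellFounded_iff_isEmpty_descending_chain]
  refine ⟨fun ⟨r, hr⟩ => ?_⟩
  have hd : ∀ k, T.dep x (r k) = T.dep x (r 0) + k := by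
    intro k
    induction k with
    | zero => rfl
    | succ k ih => rw [(hr k).2, ih]; ring
  let tl : ℕ → Set Ω := fun m => {z | ∃ k, m ≤ k ∧ r k = z}
  have hgc : ∀ m, GC T.R (tl m) := by
    intro m
    have key : ∀ k, m ≤ k →
        Relation.ReflTransGen (fun u v => u ∈ tl m ∧ v ∈ tl m ∧ T.R u v) (r m) (r k) ∧
        Relation.ReflTransGen (fun u v => u ∈ tl m ∧ v ∈ tl m ∧ T.R u v) (r k) (r m) := by
      intro k hk
      induction k, hk using Nat.le_induction with
      | base => exact ⟨.refl, .refl⟩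
      | succ k hk ih =>
        have h1 : T.R (r k) (r (k + 1)) := by
          have := (T.par_spec (hr k).2).1
          rwa [(hr k).1] at this
        exact ⟨ih.1.tail ⟨⟨k, hk, rfl⟩, ⟨k + 1, by omega, rfl⟩, h1⟩,
          .head ⟨⟨k + 1, by omega, rfl⟩, ⟨k, hk, rfl⟩, T.symm _ _ h1⟩ ih.2⟩
    rintro _ ⟨a, ha, rfl⟩ _ ⟨b, hb, rfl⟩
    exact (key a ha).2.trans (key b hb).1
  have hY : ∀ m, GC T.R (closure (tl m)) := fun m =>
    T.gc_of_tc isClosed_closure (hgc m).tc.closure
  obtain ⟨w, hw⟩ := IsCompact.nonempty_iInter_of_sequence_nonempty_isCompact_isClosed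
    (fun m => closure (tl m))
    (fun m => closure_mono fun z ⟨k, hk, hz⟩ => ⟨k, by omega, hz⟩)
    (fun m => ⟨r m, subset_closure ⟨m, le_rfl, rfl⟩⟩) isClosed_closure.isCompact
    (fun _ => isClosed_closure)
  rw [mem_iInter] at hw
  have hstep : ∀ m, T.dep x w ≤ m → closure (tl m) ⊆ closure (tl (m + 1)) := by
    intro m hm
    refine closure_minimal ?_ isClosed_closure
    rintro _ ⟨k, hk, rfl⟩
    rcases hk.eq_or_lt with rfl | hk
    · have := (T.gc_exit (hY (m + 1)) (subset_closure ⟨m + 1, le_rfl, rfl⟩) (hw (m + 1))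
        (T.desc_self x (r (m + 1))) (by
          rintro ⟨j, -, hj⟩
          rw [hd] at hj
          omega)).2
      rwa [(hr m).1] at this
    · exact subset_closure ⟨k, hk, rfl⟩
  have hall : ∀ m, T.dep x w ≤ m → closure (tl (T.dep x w)) ⊆ closure (tl m) := by
    intro m hm
    induction m, hm using Nat.le_induction with
    | base => exact Subset.rfl
    | succ m hm ih => exact ih.trans (hstep m hm)
  obtain ⟨O, hO, ⟨w', hw'O, hw'⟩, n, hn⟩ := baire_bdd (S := closure (tl (T.dep x w)))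
    isClosed_closure ⟨w, hw _⟩ (T.dep x) (T.closed_ball x)
  obtain ⟨_, hkO, k, hk, rfl⟩ :=
    mem_closure_iff.1 (hall (T.dep x w + n + 1) (by omega) hw') O hO hw'O
  have := hn (r k) ⟨hkO, subset_closure ⟨k, by omega, rfl⟩⟩
  rw [hd] at this
  omega

end ProTree

end Pool.Agent.MP_98f34a_gt.H5
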